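import Mathlib

/-!
# A counting lemma: assigning errors to tokens
-/

set_option autoImplicit false

namespace Pool.Agent.H688R3.Paging

/-- If every `e ∈ E` sees, in its recent past, at least as many elements of `F` as of `E` (in one
of two senses), then `E` has at most `((Δ - 1) / w + 1)` times as many elements as `F`. -/
theorem card_le_of_windows (E F : Finset ℕ) (w Δ : ℕ) (hw : 1 ≤ w) (hwΔ : w ≤ Δ)
    (H : ∀ e ∈ E,
      (E.filter (fun x => x ≤ e ∧ e < x + w)).card ≤ (F.filter (fun x => x ≤ e ∧ e < x + Δ)).card ∨
      ∃ u, u < e ∧ e < u + w ∧ (E.filter (fun x => x ≤ e ∧ u < x)).card ≤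
        (F.filter (fun x => x ≤ e ∧ u < x)).card) :
    E.card ≤ ((Δ - 1) / w + 1) * F.card := by
  -- the greedy assignment
  have key : ∀ n : ℕ, ∃ g : ℕ → ℕ, ∀ e ∈ E, e < n →
      (g e ∈ F ∧ g e ≤ e ∧ e < g e + Δ ∧ ∀ e' ∈ E, e' < e → e < e' + w → g e' ≠ g e) := by
    intro n
    induction n with
    | zero => exact ⟨fun _ => 0, fun e _ h => by omega⟩
    | succ n ih =>
      obtain ⟨g, hg⟩ := ih
      by_cases hn : n ∈ E
      swap
      · refine ⟨g, fun e he hlt => ?_⟩
        have : e ≠ n := fun h => hn (h ▸ he)
        exact hg e he (by omega)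
      -- find an unused token
      obtain ⟨f, hfF, hf1, hf2, hf3⟩ : ∃ f ∈ F, f ≤ n ∧ n < f + Δ ∧
          ∀ e' ∈ E, e' < n → n < e' + w → g e' ≠ f := by
        rcases H n hn with h | ⟨u, hun, hu, h⟩
        · by_contra hcon
          push Not at hcon
          have h1 : (F.filter (fun x => x ≤ n ∧ n < x + Δ)) ⊆
              ((E.filter (fun x => x ≤ n ∧ n < x + w)).erase n).image g := by
            intro f hf
            rw [Finset.mem_filter] at hf
            obtain ⟨e', he', h2, h3, h4⟩ := hcon f hf.1 hf.2.1 hf.2.2
            rw [Finset.mem_image]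
            refine ⟨e', ?_, h4⟩
            rw [Finset.mem_erase, Finset.mem_filter]
            exact ⟨by omega, he', by omega, h3⟩
          have h2 := Finset.card_le_card h1
          have h3 := Finset.card_image_le (s := (E.filter (fun x => x ≤ n ∧ n < x + w)).erase n)
            (f := g)
          have h4 : n ∈ E.filter (fun x => x ≤ n ∧ n < x + w) := by
            rw [Finset.mem_filter]; exact ⟨hn, le_rfl, by omega⟩
          rw [Finset.card_erase_of_mem h4] at h3
          have h5 : 0 < (E.filter (fun x => x ≤ n ∧ n < x + w)).card :=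
            Finset.card_pos.2 ⟨n, h4⟩
          omega
        · by_contra hcon
          push Not at hcon
          have h1 : (F.filter (fun x => x ≤ n ∧ u < x)) ⊆
              ((E.filter (fun x => x ≤ n ∧ u < x)).erase n).image g := by
            intro f hf
            rw [Finset.mem_filter] at hf
            obtain ⟨e', he', h2, h3, h4⟩ := hcon f hf.1 hf.2.1 (by omega)
            rw [Finset.mem_image]
            refine ⟨e', ?_, h4⟩
            rw [Finset.mem_erase, Finset.mem_filter]
            have h5 := (hg e' he' h2).2.1
            exact ⟨by omega, he', by omega, by omega⟩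
          have h2 := Finset.card_le_card h1
          have h3 := Finset.card_image_le (s := (E.filter (fun x => x ≤ n ∧ u < x)).erase n)
            (f := g)
          have h4 : n ∈ E.filter (fun x => x ≤ n ∧ u < x) := by
            rw [Finset.mem_filter]; exact ⟨hn, le_rfl, by omega⟩
          rw [Finset.card_erase_of_mem h4] at h3
          have h5 : 0 < (E.filter (fun x => x ≤ n ∧ u < x)).card :=
            Finset.card_pos.2 ⟨n, h4⟩
          omega
      refine ⟨Function.update g n f, fun e he hlt => ?_⟩
      rcases Nat.lt_or_ge e n with h | h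
      · have hne : e ≠ n := by omega
        rw [Function.update_of_ne hne]
        refine ⟨(hg e he h).1, (hg e he h).2.1, (hg e he h).2.2.1, fun e' he' h1 h2 => ?_⟩
        rw [Function.update_of_ne (by omega)]
        exact (hg e he h).2.2.2 e' he' h1 h2
      · obtain rfl : e = n := by omega
        rw [Function.update_self]
        refine ⟨hfF, hf1, hf2, fun e' he' h1 h2 => ?_⟩
        rw [Function.update_of_ne (by omega)]
        exact hf3 e' he' h1 h2
  obtain ⟨N, hN⟩ : ∃ N, ∀ e ∈ E, e < N := by
    refine ⟨E.sup id + 1, fun e he => ?_⟩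
    have := Finset.le_sup (f := id) he
    simp only [id] at this
    omega
  obtain ⟨g, hg⟩ := key N
  have hmaps : ∀ e ∈ E, g e ∈ F := fun e he => (hg e he (hN e he)).1
  rw [mul_comm]
  refine Finset.card_le_mul_card_image_of_maps_to hmaps _ ?_ |>.trans (le_of_eq (mul_comm _ _))
  intro f hf
  -- the fibre over `f`
  have hinj : Set.InjOn (fun e => (e - f) / w) (E.filter (fun e => g e = f)) := by
    intro a ha b hb hab
    rw [Finset.mem_coe, Finset.mem_filter] at ha hb
    have ha' := hg a ha.1 (hN a ha.1)
    have hb' := hg b hb.1 (hN b hb.1)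
    simp only at hab
    by_contra hne
    rcases Nat.lt_or_gt_of_ne hne with hlt | hlt
    · have h1 : ¬ b < a + w := fun h => hb'.2.2.2 a ha.1 hlt h (by rw [ha.2, hb.2])
      have h2 : (a - f) / w < (b - f) / w := by
        have : a - f + w ≤ b - f := by
          have := ha'.2.1
          rw [ha.2] at this
          omega
        calc (a - f) / w < (a - f) / w + 1 := Nat.lt_succ_self _
          _ = (a - f + w) / w := (Nat.add_div_right _ (by omega)).symm
          _ ≤ (b - f) / w := Nat.div_le_div_right this
      omega
    · have h1 : ¬ a < b + w := fun h => ha'.2.2.2 b hb.1 hlt h (by rw [ha.2, hb.2])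
      have h2 : (b - f) / w < (a - f) / w := by
        have : b - f + w ≤ a - f := by
          have := hb'.2.1
          rw [hb.2] at this
          omega
        calc (b - f) / w < (b - f) / w + 1 := Nat.lt_succ_self _
          _ = (b - f + w) / w := (Nat.add_div_right _ (by omega)).symm
          _ ≤ (a - f) / w := Nat.div_le_div_right this
      omega
  have hmap : Set.MapsTo (fun e => (e - f) / w) (E.filter (fun e => g e = f) : Finset ℕ)
      (Finset.range ((Δ - 1) / w + 1) : Finset ℕ) := by
    intro a ha
    rw [Finset.mem_coe, Finset.mem_filter] at ha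
    have ha' := hg a ha.1 (hN a ha.1)
    rw [ha.2] at ha'
    rw [Finset.mem_coe, Finset.mem_range]
    have : (a - f) / w ≤ (Δ - 1) / w := Nat.div_le_div_right (by omega)
    simp only
    omega
  have := Finset.card_le_card_of_injOn _ hmap hinj
  simpa using this

end Pool.Agent.H688R3.Paging
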