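import Mathlib

/-!
# Paging algorithms with lookahead: definitions and basic facts
-/

set_option autoImplicit false

open scoped ENNReal NNReal

namespace Pool.Agent.H688R3.Paging

variable {U : Type} [DecidableEq U]

/-- The contents `C'` of a fast memory of size `k` after serving the request `r` with contents `C`:
nothing changes if `r` is in the memory; otherwise (a fault) `r` is brought in, and one page is
evicted if the memory is full. -/
def Step (k : ℕ) (C : Finset U) (r : U) (C' : Finset U) : Prop :=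
  (r ∈ C ∧ C' = C) ∨ (r ∉ C ∧ C.card < k ∧ C' = insert r C) ∨
    (r ∉ C ∧ C.card = k ∧ ∃ x ∈ C, C' = insert r (C.erase x))

/-- The (deterministic) paging algorithms with memory size `k`, initial contents `S₀` and
lookahead `i`.  `A σ t` is the contents of the fast memory after the first `t` requests of the
request sequence `σ` have been served.  The contents after request number `t` (counted from `0`)
depend only on the requests number `0, …, t + i`. -/
structure IsAlg (k : ℕ) (S₀ : Finset U) (i : ℕ) (A : List U → ℕ → Finset U) : Prop where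
  init : ∀ σ, A σ 0 = S₀
  step : ∀ σ t (h : t < σ.length), Step k (A σ t) σ[t] (A σ (t + 1))
  online : ∀ σ σ' t, t < σ.length → t < σ'.length →
    σ.take (t + 1 + i) = σ'.take (t + 1 + i) → A σ (t + 1) = A σ' (t + 1)

/-- `𝓛 k S₀ i` is the class of all paging algorithms with lookahead `i`. -/
def 𝓛 (k : ℕ) (S₀ : Finset U) (i : ℕ) : Set (List U → ℕ → Finset U) := {A | IsAlg k S₀ i A}

/-- The number of faults of `A` on the request sequence `σ`. -/
def cost (A : List U → ℕ → Finset U) (σ : List U) : ℕ :=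
  (Finset.univ.filter (fun t : Fin σ.length => σ.get t ∉ A σ t)).card

/-- `r(A,B)`: the infimum of all `c` such that for some constant `b`, on every request sequence
`A` has at most `c` times as many faults as `B`, plus `b`. -/
noncomputable def ratio (A B : List U → ℕ → Finset U) : ℝ≥0∞ :=
  sInf {c : ℝ≥0∞ | ∃ b : ℝ≥0, ∀ σ : List U, (cost A σ : ℝ≥0∞) ≤ c * cost B σ + b}

/-- The comparative ratio `c(𝒜,ℬ)`: the supremum over `B` in `ℬ` of the infimum over `A` in `𝒜` of
`r(A,B)`. -/
noncomputable def comparativeRatio (𝒜 ℬ : Set (List U → ℕ → Finset U)) : ℝ≥0∞ :=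
  ⨆ B ∈ ℬ, ⨅ A ∈ 𝒜, ratio A B

/-! ### Runs -/

/-- `C` is a legal run of contents on `σ`. -/
def Run (k : ℕ) (σ : List U) (C : ℕ → Finset U) : Prop :=
  ∀ t (h : t < σ.length), Step k (C t) σ[t] (C (t + 1))

section step
variable {k : ℕ} {C C' : Finset U} {r : U}

lemma Step.mem (h : Step k C r C') : r ∈ C' := by
  rcases h with ⟨h1, rfl⟩ | ⟨_, _, rfl⟩ | ⟨_, _, x, _, rfl⟩ <;> simp [*]

lemma Step.subset (h : Step k C r C') : C' ⊆ insert r C := by
  rcases h with ⟨h1, rfl⟩ | ⟨_, _, rfl⟩ | ⟨_, _, x, _, rfl⟩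
  · exact Finset.subset_insert _ _
  · exact subset_rfl
  · exact Finset.insert_subset_insert _ (Finset.erase_subset _ _)

lemma Step.card_le (h : Step k C r C') (hC : C.card ≤ k) : C'.card ≤ k := by
  rcases h with ⟨h1, rfl⟩ | ⟨h0, h1, rfl⟩ | ⟨h0, h1, x, hx, rfl⟩
  · exact hC
  · rw [Finset.card_insert_of_notMem h0]; omega
  · rw [Finset.card_insert_of_notMem (fun h => h0 (Finset.mem_of_mem_erase h)),
      Finset.card_erase_of_mem hx]
    have : 0 < C.card := Finset.card_pos.2 ⟨x, hx⟩
    omega

lemma Step.card_eq (h : Step k C r C') (hC : C.card = k) : C'.card = k := by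
  rcases h with ⟨h1, rfl⟩ | ⟨h0, h1, rfl⟩ | ⟨h0, h1, x, hx, rfl⟩
  · exact hC
  · omega
  · rw [Finset.card_insert_of_notMem (fun h => h0 (Finset.mem_of_mem_erase h)),
      Finset.card_erase_of_mem hx]
    have : 0 < C.card := Finset.card_pos.2 ⟨x, hx⟩
    omega

lemma Step.eq_of_mem (h : Step k C r C') (hr : r ∈ C) : C' = C := by
  rcases h with ⟨h1, rfl⟩ | ⟨h0, h1, rfl⟩ | ⟨h0, h1, x, hx, rfl⟩
  · rfl
  · exact absurd hr h0
  · exact absurd hr h0

lemma Step.eq_of_lt (h : Step k C r C') (hr : C.card < k) : C' = insert r C := by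
  rcases h with ⟨h1, rfl⟩ | ⟨h0, h1, rfl⟩ | ⟨h0, h1, x, hx, rfl⟩
  · rw [Finset.insert_eq_of_mem h1]
  · rfl
  · omega

/-- The full case of a fault. -/
lemma Step.evict (h : Step k C r C') (hr : r ∉ C) (hC : C.card = k) :
    ∃ x ∈ C, x ≠ r ∧ C' = insert r (C.erase x) := by
  rcases h with ⟨h1, rfl⟩ | ⟨h0, h1, rfl⟩ | ⟨h0, h1, x, hx, rfl⟩
  · exact absurd h1 hr
  · omega
  · exact ⟨x, hx, fun h => h0 (h ▸ hx), rfl⟩

/-- If a page leaves the memory then this is a fault, the memory was full, and it is the only page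
which leaves. -/
lemma Step.of_evicted (h : Step k C r C') {x : U} (hx : x ∈ C) (hx' : x ∉ C') :
    r ∉ C ∧ C.card = k ∧ C' = insert r (C.erase x) := by
  rcases h with ⟨h1, rfl⟩ | ⟨h0, h1, rfl⟩ | ⟨h0, h1, y, hy, rfl⟩
  · exact absurd hx hx'
  · exact absurd (Finset.mem_insert_of_mem hx) hx'
  · refine ⟨h0, h1, ?_⟩
    have : x = y := by
      by_contra hne
      exact hx' (Finset.mem_insert_of_mem (Finset.mem_erase.2 ⟨hne, hx⟩))
    rw [this]

lemma Step.card_evicted_le (h : Step k C r C') : (C \ C').card ≤ 1 := by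
  rw [Finset.card_le_one]
  intro x hx y hy
  rw [Finset.mem_sdiff] at hx hy
  obtain ⟨h0, -, h2⟩ := h.of_evicted hx.1 hx.2
  by_contra hne
  apply hy.2
  rw [h2]
  exact Finset.mem_insert_of_mem (Finset.mem_erase.2 ⟨fun h => hne h.symm, hy.1⟩)

end step

section run
variable {k : ℕ} {σ : List U} {C : ℕ → Finset U}

lemma Run.card_le (h : Run k σ C) (h0 : (C 0).card ≤ k) (t : ℕ) (ht : t ≤ σ.length) :
    (C t).card ≤ k := by
  induction t with
  | zero => exact h0
  | succ t ih => exact (h t (by omega)).card_le (ih (by omega))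

/-- A page that is in the memory at time `j` and not at time `e` is evicted in between. -/
lemma Run.exists_evict (_h : Run k σ C) {x : U} {j e : ℕ} (hje : j ≤ e)
    (hj : x ∈ C j) (hx : x ∉ C e) : ∃ f, j ≤ f ∧ f < e ∧ x ∈ C f \ C (f + 1) := by
  induction e with
  | zero =>
    obtain rfl : j = 0 := by omega
    exact absurd hj hx
  | succ e ih =>
    by_cases he : x ∈ C e
    · have : j ≤ e := by
        by_contra hc
        have : j = e + 1 := by omega
        rw [this] at hj
        exact hx hj
      exact ⟨e, this, by omega, Finset.mem_sdiff.2 ⟨he, hx⟩⟩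
    · have : j ≤ e := by
        by_contra hc
        have : j = e + 1 := by omega
        rw [this] at hj
        exact hx hj
      obtain ⟨f, h1, h2, h3⟩ := ih this he
      exact ⟨f, h1, by omega, h3⟩

/-- The contents at time `e` are contained in those at time `j` and the requests in between. -/
lemma Run.mem_of_mem (h : Run k σ C) {x : U} {j e : ℕ} (hje : j ≤ e) (he : e ≤ σ.length)
    (hx : x ∈ C e) : x ∈ C j ∨ ∃ (f : ℕ) (hf : f < σ.length), j ≤ f ∧ f < e ∧ σ[f] = x := by
  induction e with
  | zero =>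
    obtain rfl : j = 0 := by omega
    exact Or.inl hx
  | succ e ih =>
    rcases Nat.lt_or_ge e j with h1 | h1
    · obtain rfl : j = e + 1 := by omega
      exact Or.inl hx
    · have h2 := (h e (by omega)).subset hx
      rw [Finset.mem_insert] at h2
      rcases h2 with h2 | h2
      · exact Or.inr ⟨e, by omega, h1, by omega, h2.symm⟩
      · rcases ih h1 (by omega) h2 with h3 | ⟨f, hf, h3, h4, h5⟩
        · exact Or.inl h3
        · exact Or.inr ⟨f, hf, h3, by omega, h5⟩

/-- A page that is not in the memory and not requested stays outside. -/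
lemma Run.not_mem (h : Run k σ C) {x : U} {j e : ℕ} (hje : j ≤ e) (he : e ≤ σ.length)
    (hx : x ∉ C j) (hr : ∀ f (hf : f < σ.length), j ≤ f → f < e → σ[f] ≠ x) : x ∉ C e := by
  intro hxe
  rcases h.mem_of_mem hje he hxe with h1 | ⟨f, hf, h1, h2, h3⟩
  · exact hx h1
  · exact hr f hf h1 h2 h3

/-- Two runs from the same contents always have the same number of pages, and are equal as long as
the memory is not full. -/
lemma Run.pair {A B : ℕ → Finset U} (hA : Run k σ A) (hB : Run k σ B) (h0 : A 0 = B 0)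
    (hk : (A 0).card ≤ k) (t : ℕ) (ht : t ≤ σ.length) :
    (A t = B t) ∨ ((A t).card = k ∧ (B t).card = k) := by
  induction t with
  | zero => exact Or.inl h0
  | succ t ih =>
    have hA1 := hA t (by omega)
    have hB1 := hB t (by omega)
    rcases ih (by omega) with h | ⟨h1, h2⟩
    · have hc := hA.card_le hk t (by omega)
      rcases Nat.lt_or_ge (A t).card k with h3 | h3
      · left
        rw [hA1.eq_of_lt h3, hB1.eq_of_lt (h ▸ h3), h]
      · right
        have h4 : (A t).card = k := le_antisymm hc h3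
        exact ⟨hA1.card_eq h4, hB1.card_eq (h ▸ h4)⟩
    · exact Or.inr ⟨hA1.card_eq h1, hB1.card_eq h2⟩

end run

/-! ### The faults as a set of natural numbers -/

/-- The faults of a run. -/
def faults (σ : List U) (C : ℕ → Finset U) : Finset ℕ :=
  (Finset.range σ.length).filter (fun t => ∃ h : t < σ.length, σ[t] ∉ C t)

lemma mem_faults {σ : List U} {C : ℕ → Finset U} {t : ℕ} :
    t ∈ faults σ C ↔ ∃ h : t < σ.length, σ[t] ∉ C t := by
  unfold faults
  rw [Finset.mem_filter, Finset.mem_range]
  exact ⟨fun h => h.2, fun h => ⟨h.1, h⟩⟩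

lemma cost_eq (A : List U → ℕ → Finset U) (σ : List U) : cost A σ = (faults σ (A σ)).card := by
  unfold cost
  refine Finset.card_bij (fun t _ => (t : ℕ)) ?_ ?_ ?_
  · intro t ht
    rw [Finset.mem_filter] at ht
    exact mem_faults.2 ⟨t.2, ht.2⟩
  · intro a _ b _ h
    exact Fin.ext h
  · intro b hb
    obtain ⟨h1, h2⟩ := mem_faults.1 hb
    exact ⟨⟨b, h1⟩, Finset.mem_filter.2 ⟨Finset.mem_univ _, h2⟩, rfl⟩

lemma IsAlg.run {k : ℕ} {S₀ : Finset U} {i : ℕ} {A : List U → ℕ → Finset U}
    (h : IsAlg k S₀ i A) (σ : List U) : Run k σ (A σ) := fun t ht => h.step σ t ht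

/-! ### Algorithms given by an eviction rule -/

/-- The run of the algorithm which, at a fault with full memory `C` at request number `t`, evicts
`v σ t C`. -/
def evRun (k : ℕ) (S₀ : Finset U) (v : List U → ℕ → Finset U → U) (σ : List U) : ℕ → Finset U
  | 0 => S₀
  | t + 1 =>
    if h : t < σ.length then
      if σ[t] ∈ evRun k S₀ v σ t then evRun k S₀ v σ t
      else if (evRun k S₀ v σ t).card < k then insert σ[t] (evRun k S₀ v σ t)
      else insert σ[t] ((evRun k S₀ v σ t).erase (v σ t (evRun k S₀ v σ t)))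
    else evRun k S₀ v σ t

lemma evRun_run (k : ℕ) (S₀ : Finset U) (hS : S₀.card ≤ k)
    (v : List U → ℕ → Finset U → U)
    (hv : ∀ σ t C, C.card = k → v σ t C ∈ C) (σ : List U) :
    Run k σ (evRun k S₀ v σ) ∧ ∀ t ≤ σ.length, (evRun k S₀ v σ t).card ≤ k := by
  have key : ∀ t (h : t < σ.length), (evRun k S₀ v σ t).card ≤ k →
      Step k (evRun k S₀ v σ t) σ[t] (evRun k S₀ v σ (t + 1)) := by
    intro t h hc
    rw [evRun, dif_pos h]
    split_ifs with h1 h2
    · exact Or.inl ⟨h1, rfl⟩
    · exact Or.inr (Or.inl ⟨h1, h2, rfl⟩)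
    · have h3 : (evRun k S₀ v σ t).card = k := by omega
      exact Or.inr (Or.inr ⟨h1, h3, _, hv σ t _ h3, rfl⟩)
  have hc : ∀ t ≤ σ.length, (evRun k S₀ v σ t).card ≤ k := by
    intro t
    induction t with
    | zero => intro _; exact hS
    | succ t ih =>
      intro ht
      exact (key t (by omega) (ih (by omega))).card_le (ih (by omega))
  exact ⟨fun t h => key t h (hc t (by omega)), hc⟩

lemma evRun_isAlg (k : ℕ) (S₀ : Finset U) (hS : S₀.card ≤ k) (i : ℕ)
    (v : List U → ℕ → Finset U → U)
    (hv : ∀ σ t C, C.card = k → v σ t C ∈ C)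
    (hon : ∀ σ σ' t C, t < σ.length → t < σ'.length → σ.take (t + 1 + i) = σ'.take (t + 1 + i) →
      v σ t C = v σ' t C) :
    IsAlg k S₀ i (evRun k S₀ v) := by
  refine ⟨fun σ => rfl, fun σ => (evRun_run k S₀ hS v hv σ).1, ?_⟩
  intro σ σ' t
  induction t with
  | zero =>
    intro h1 h2 h3
    have hr : σ[0] = σ'[0] := by
      have h4 : (σ.take (0 + 1 + i))[0]'(by simp; omega) =
        (σ'.take (0 + 1 + i))[0]'(by simp; omega) := by simp only [h3]
      simpa using h4
    simp only [evRun]
    rw [dif_pos h1, dif_pos h2]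
    simp only [hr]
    rw [hon σ σ' 0 S₀ h1 h2 h3]
  | succ t ih =>
    intro h1 h2 h3
    have h4 : σ.take (t + 1 + i) = σ'.take (t + 1 + i) := by
      have h5 := congrArg (List.take (t + 1 + i)) h3
      rw [List.take_take, List.take_take] at h5
      rwa [min_eq_left (by omega)] at h5
    have h6 := ih (by omega) (by omega) h4
    have hr : σ[t + 1] = σ'[t + 1] := by
      have h4 : (σ.take (t + 1 + 1 + i))[t + 1]'(by simp; omega) =
        (σ'.take (t + 1 + 1 + i))[t + 1]'(by simp; omega) := by simp only [h3]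
      simpa using h4
    rw [evRun, evRun.eq_def k S₀ v σ' (t + 1 + 1)]
    simp only
    rw [dif_pos h1, dif_pos h2, hr, h6, hon σ σ' (t + 1) _ h1 h2 h3]

/-- Some element of `C` whose first occurrence in the list `fut` is as late as possible (`r` if
`C` is empty). -/
noncomputable def far (C : Finset U) (fut : List U) (r : U) : U :=
  if h : C.Nonempty then (Finset.exists_max_image C (fun x => fut.idxOf x) h).choose else r

lemma far_mem {C : Finset U} (fut : List U) (r : U) (h : C.Nonempty) : far C fut r ∈ C := by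
  unfold far
  rw [dif_pos h]
  exact (Finset.exists_max_image C (fun x => fut.idxOf x) h).choose_spec.1

lemma le_far {C : Finset U} (fut : List U) (r : U) {x : U} (hx : x ∈ C) :
    fut.idxOf x ≤ fut.idxOf (far C fut r) := by
  have h : C.Nonempty := ⟨x, hx⟩
  unfold far
  rw [dif_pos h]
  exact (Finset.exists_max_image C (fun x => fut.idxOf x) h).choose_spec.2 x hx

end Pool.Agent.H688R3.Paging
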