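import Pool.Agent.H688R3.Paging.Basic

/-!
# Two facts about a pair of runs: the potential and the counting of errors
-/

set_option autoImplicit false

namespace Pool.Agent.H688R3.Paging

variable {U : Type} [DecidableEq U]

/-- A page evicted from `A` which `B` keeps. -/
def Err (A B : ℕ → Finset U) (t : ℕ) : Prop := ((A t \ A (t + 1)) ∩ B (t + 1)).Nonempty

instance (A B : ℕ → Finset U) (t : ℕ) : Decidable (Err A B t) := by
  unfold Err; infer_instance

/-- The number of pages of `A` that are not in `B` increases by at most one at a fault of `B`, and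
decreases by one at each fault of `A` that is not an error. -/
lemma potential {k : ℕ} {A B A' B' : Finset U} {r : U} (hA : Step k A r A') (hB : Step k B r B')
    (h : A = B ∨ (A.card = k ∧ B.card = k)) (hAk : A.card ≤ k) :
    (A' \ B').card + (if r ∉ A ∧ ¬ ((A \ A') ∩ B').Nonempty then 1 else 0) ≤
      (A \ B).card + (if r ∉ B then 1 else 0) := by
  rcases Nat.lt_or_ge A.card k with hlt | hge
  · -- the memory is not full
    have hAB : A = B := by
      rcases h with h | h
      · exact h
      · omega
    subst hAB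
    rw [hA.eq_of_lt hlt, hB.eq_of_lt hlt]
    by_cases hr : r ∈ A
    · simp [hr]
    · simp only [hr, not_false_eq_true, true_and, if_true, Finset.sdiff_self, Finset.card_empty]
      split_ifs <;> omega
  have hAk' : A.card = k := le_antisymm hAk hge
  have hBk' : B.card = k := by
    rcases h with h | h
    · rw [← h]; exact hAk'
    · exact h.2
  by_cases hrA : r ∈ A
  · have hA' := hA.eq_of_mem hrA
    rw [hA']
    have h1 : ¬ (r ∉ A ∧ ¬ ((A \ A) ∩ B').Nonempty) := fun h => h.1 hrA
    rw [if_neg h1]
    by_cases hrB : r ∈ B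
    · rw [hB.eq_of_mem hrB]
      simp
    · rw [if_pos hrB]
      obtain ⟨b, hb, hbr, hB'⟩ := hB.evict hrB hBk'
      have h2 : A \ B' ⊆ insert b (A \ B) := by
        intro x hx
        rw [Finset.mem_sdiff, hB', Finset.mem_insert, Finset.mem_erase] at hx
        rw [Finset.mem_insert, Finset.mem_sdiff]
        by_cases hxb : x = b
        · exact Or.inl hxb
        · exact Or.inr ⟨hx.1, fun h => hx.2 (Or.inr ⟨hxb, h⟩)⟩
      have h3 := (Finset.card_le_card h2).trans (Finset.card_insert_le _ _)
      omega
  · obtain ⟨a, ha, har, hA'⟩ := hA.evict hrA hAk'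
    have hev : A \ A' = {a} := by
      ext x
      rw [hA', Finset.mem_sdiff, Finset.mem_insert, Finset.mem_erase, Finset.mem_singleton]
      constructor
      · rintro ⟨h1, h2⟩
        by_contra h3
        exact h2 (Or.inr ⟨h3, h1⟩)
      · rintro rfl
        refine ⟨ha, ?_⟩
        rintro (h1 | h1)
        · exact har h1
        · exact h1.1 rfl
    have hne : ((A \ A') ∩ B').Nonempty ↔ a ∈ B' := by
      rw [hev]
      constructor
      · rintro ⟨x, hx⟩
        rw [Finset.mem_inter, Finset.mem_singleton] at hx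
        rw [← hx.1]
        exact hx.2
      · intro h1
        exact ⟨a, Finset.mem_inter.2 ⟨Finset.mem_singleton_self a, h1⟩⟩
    simp only [hne]
    by_cases hrB : r ∈ B
    · have hB' := hB.eq_of_mem hrB
      rw [hB']
      rw [if_neg (not_not.2 hrB)]
      have h1 : A' \ B ⊆ A \ B := by
        intro x hx
        rw [Finset.mem_sdiff, hA', Finset.mem_insert, Finset.mem_erase] at hx
        rw [Finset.mem_sdiff]
        rcases hx with ⟨rfl | hx1, hx2⟩
        · exact absurd hrB hx2
        · exact ⟨hx1.2, hx2⟩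
      by_cases haB : a ∈ B
      · rw [if_neg (fun h => h.2 haB)]
        have := Finset.card_le_card h1
        omega
      · rw [if_pos ⟨hrA, haB⟩]
        have h2 : A' \ B ⊆ (A \ B).erase a := by
          intro x hx
          rw [Finset.mem_erase]
          refine ⟨?_, h1 hx⟩
          rintro rfl
          rw [Finset.mem_sdiff, hA', Finset.mem_insert, Finset.mem_erase] at hx
          rcases hx.1 with h3 | h3
          · exact har h3
          · exact h3.1 rfl
        have h3 : a ∈ A \ B := Finset.mem_sdiff.2 ⟨ha, haB⟩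
        have h4 := Finset.card_le_card h2
        rw [Finset.card_erase_of_mem h3] at h4
        have h5 : 0 < (A \ B).card := Finset.card_pos.2 ⟨a, h3⟩
        omega
    · rw [if_pos hrB]
      obtain ⟨b, hb, hbr, hB'⟩ := hB.evict hrB hBk'
      have h1 : A' \ B' ⊆ insert b (A \ B) := by
        intro x hx
        rw [Finset.mem_sdiff, hA', hB', Finset.mem_insert, Finset.mem_erase, Finset.mem_insert,
          Finset.mem_erase] at hx
        rw [Finset.mem_insert, Finset.mem_sdiff]
        rcases hx with ⟨rfl | hx1, hx2⟩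
        · exact absurd (Or.inl rfl) hx2
        · by_cases hxb : x = b
          · exact Or.inl hxb
          · exact Or.inr ⟨hx1.2, fun h => hx2 (Or.inr ⟨hxb, h⟩)⟩
      by_cases haB : a ∈ B'
      · rw [if_neg (fun h => h.2 haB)]
        have h2 := (Finset.card_le_card h1).trans (Finset.card_insert_le _ _)
        omega
      · rw [if_pos ⟨hrA, haB⟩]
        have h2 : A' \ B' ⊆ (insert b (A \ B)).erase a := by
          intro x hx
          rw [Finset.mem_erase]
          refine ⟨?_, h1 hx⟩
          rintro rfl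
          rw [Finset.mem_sdiff, hA', Finset.mem_insert, Finset.mem_erase] at hx
          rcases hx.1 with h3 | h3
          · exact har h3
          · exact h3.1 rfl
        have h3 : a ∈ insert b (A \ B) := by
          rw [Finset.mem_insert, Finset.mem_sdiff]
          rw [hB', Finset.mem_insert, Finset.mem_erase] at haB
          push Not at haB
          by_cases hab : a = b
          · exact Or.inl hab
          · exact Or.inr ⟨ha, haB.2 hab⟩
        have h4 := Finset.card_le_card h2
        rw [Finset.card_erase_of_mem h3] at h4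
        have h5 := Finset.card_insert_le b (A \ B)
        omega

/-- The faults of `A` that are not errors are at most as many as the faults of `B`. -/
lemma card_faults_le {k : ℕ} {σ : List U} {A B : ℕ → Finset U} (hA : Run k σ A) (hB : Run k σ B)
    (h0 : A 0 = B 0) (hk : (A 0).card ≤ k) :
    (faults σ A).card ≤ (faults σ B).card + ((faults σ A).filter (fun t => Err A B t)).card := by
  have key : ∀ t ≤ σ.length, (A t \ B t).card +
      ∑ s ∈ Finset.range t, (if (s ∈ faults σ A ∧ ¬ Err A B s) then 1 else 0) ≤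
      ∑ s ∈ Finset.range t, (if s ∈ faults σ B then 1 else 0) := by
    intro t
    induction t with
    | zero => intro _; simp [h0]
    | succ t ih =>
      intro ht
      have h1 := ih (by omega)
      have h2 := potential (hA t (by omega)) (hB t (by omega)) (hA.pair hB h0 hk t (by omega))
        (hA.card_le hk t (by omega))
      rw [Finset.sum_range_succ, Finset.sum_range_succ]
      have h3 : (t ∈ faults σ A ∧ ¬ Err A B t) ↔
          (σ[t] ∉ A t ∧ ¬ ((A t \ A (t + 1)) ∩ B (t + 1)).Nonempty) := by
        rw [mem_faults]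
        constructor
        · rintro ⟨⟨_, h4⟩, h5⟩
          exact ⟨h4, h5⟩
        · rintro ⟨h4, h5⟩
          exact ⟨⟨by omega, h4⟩, h5⟩
      have h4 : t ∈ faults σ B ↔ σ[t] ∉ B t := by
        rw [mem_faults]
        exact ⟨fun h => h.2, fun h => ⟨by omega, h⟩⟩
      simp only [h3, h4]
      omega
  have h1 := key σ.length le_rfl
  have h2 : ∑ s ∈ Finset.range σ.length, (if s ∈ faults σ B then 1 else 0) =
      (faults σ B).card := by
    rw [Finset.sum_boole]
    simp only [Nat.cast_id]
    congr 1
    ext s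
    rw [Finset.mem_filter, Finset.mem_range]
    constructor
    · exact fun h => h.2
    · exact fun h => ⟨(mem_faults.1 h).1, h⟩
  have h3 : ∑ s ∈ Finset.range σ.length, (if (s ∈ faults σ A ∧ ¬ Err A B s) then 1 else 0) =
      ((faults σ A).filter (fun t => ¬ Err A B t)).card := by
    rw [Finset.sum_boole]
    simp only [Nat.cast_id]
    congr 1
    ext s
    rw [Finset.mem_filter, Finset.mem_filter, Finset.mem_range]
    constructor
    · exact fun h => h.2
    · exact fun h => ⟨(mem_faults.1 h.1).1, h⟩
  have h4 := Finset.card_filter_add_card_filter_not (s := faults σ A) (fun t => Err A B t)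
  omega

/-- The core inequality: the errors in the window `W` are at most as many as the tokens `F'`. -/
lemma core {k : ℕ} {σ : List U} {A B : ℕ → Finset U} (hA : Run k σ A) (hB : Run k σ B)
    (h0 : A 0 = B 0) (hk : (A 0).card ≤ k) {e : ℕ} (he : e < σ.length) (W F' : Finset ℕ)
    (hW : ∀ x ∈ W, x ≤ e ∧ Err A B x)
    (hWA : ∀ x ∈ W, ∀ a ∈ A x \ A (x + 1), ∀ t, x < t → t ≤ e + 1 → a ∉ A t)
    (hF : ∀ f ∈ F', f < σ.length)
    (hF1 : ∀ x ∈ W, ∀ f, x < f → f ≤ e → f ∈ faults σ B → f ∈ F')
    (hF2 : ∀ p ∈ A (e + 1), p ∉ B (e + 1) → ∃ f ∈ F', p ∈ B f \ B (f + 1)) :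
    W.card ≤ F'.card := by
  classical
  have hch : ∀ x, ∃ a, x ∈ W → a ∈ (A x \ A (x + 1)) ∩ B (x + 1) := by
    intro x
    by_cases hx : x ∈ W
    · obtain ⟨a, ha⟩ := (hW x hx).2
      exact ⟨a, fun _ => ha⟩
    · rcases isEmpty_or_nonempty U with hU | ⟨⟨u⟩⟩
      · exact (hU.false (σ[e])).elim
      · exact ⟨u, fun h => absurd h hx⟩
  choose α hα using hch
  have hα1 : ∀ x ∈ W, α x ∈ A x := fun x hx =>
    (Finset.mem_sdiff.1 (Finset.mem_inter.1 (hα x hx)).1).1
  have hα2 : ∀ x ∈ W, α x ∈ B (x + 1) := fun x hx => (Finset.mem_inter.1 (hα x hx)).2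
  have hα3 : ∀ x ∈ W, ∀ t, x < t → t ≤ e + 1 → α x ∉ A t := fun x hx =>
    hWA x hx _ (Finset.mem_inter.1 (hα x hx)).1
  have hinj : Set.InjOn α W := by
    intro x hx y hy hxy
    by_contra hne
    rcases Nat.lt_or_gt_of_ne hne with h | h
    · exact hα3 x hx y h (by have := (hW y hy).1; omega) (hxy ▸ hα1 y hy)
    · exact hα3 y hy x h (by have := (hW x hx).1; omega) (hxy ▸ hα1 x hx)
  set V := W.image α with hV
  have hVc : V.card = W.card := Finset.card_image_of_injOn hinj
  set H := F'.biUnion (fun f => B f \ B (f + 1)) with hH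
  have hHc : H.card ≤ F'.card := by
    have := Finset.card_biUnion_le_card_mul F' (fun f => B f \ B (f + 1)) 1
      (fun f hf => (hB f (hF f hf)).card_evicted_le)
    simpa using this
  have hVA : ∀ x ∈ V, x ∉ A (e + 1) := by
    intro x hx
    obtain ⟨y, hy, rfl⟩ := Finset.mem_image.1 hx
    exact hα3 y hy (e + 1) (by have := (hW y hy).1; omega) le_rfl
  have hYH : V \ B (e + 1) ⊆ H := by
    intro x hx
    rw [Finset.mem_sdiff] at hx
    obtain ⟨y, hy, rfl⟩ := Finset.mem_image.1 hx.1
    have hye := (hW y hy).1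
    obtain ⟨f, h1, h2, h3⟩ := hB.exists_evict (j := y + 1) (e := e + 1) (by omega)
      (hα2 y hy) hx.2
    have h4 : f ∈ faults σ B := by
      rw [mem_faults]
      refine ⟨by omega, ?_⟩
      rw [Finset.mem_sdiff] at h3
      exact ((hB f (by omega)).of_evicted h3.1 h3.2).1
    exact Finset.mem_biUnion.2 ⟨f, hF1 y hy f (by omega) (by omega) h4, h3⟩
  have hAH : A (e + 1) \ B (e + 1) ⊆ H := by
    intro x hx
    rw [Finset.mem_sdiff] at hx
    obtain ⟨f, h1, h2⟩ := hF2 x hx.1 hx.2
    exact Finset.mem_biUnion.2 ⟨f, h1, h2⟩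
  have hcard : (A (e + 1)).card = (B (e + 1)).card := by
    rcases hA.pair hB h0 hk (e + 1) (by omega) with h | h
    · rw [h]
    · rw [h.1, h.2]
  have hdisj : Disjoint (A (e + 1) \ B (e + 1)) (V \ B (e + 1)) := by
    rw [Finset.disjoint_left]
    intro x hx hx'
    exact hVA x (Finset.mem_sdiff.1 hx').1 (Finset.mem_sdiff.1 hx).1
  have h1 : V ⊆ (B (e + 1) \ A (e + 1)) ∪ (V \ B (e + 1)) := by
    intro x hx
    rw [Finset.mem_union, Finset.mem_sdiff, Finset.mem_sdiff]
    by_cases hxB : x ∈ B (e + 1)
    · exact Or.inl ⟨hxB, hVA x hx⟩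
    · exact Or.inr ⟨hx, hxB⟩
  calc W.card = V.card := hVc.symm
    _ ≤ ((B (e + 1) \ A (e + 1)) ∪ (V \ B (e + 1))).card := Finset.card_le_card h1
    _ ≤ (B (e + 1) \ A (e + 1)).card + (V \ B (e + 1)).card := Finset.card_union_le _ _
    _ = (A (e + 1) \ B (e + 1)).card + (V \ B (e + 1)).card := by
        rw [Finset.card_sdiff_comm hcard]
    _ = ((A (e + 1) \ B (e + 1)) ∪ (V \ B (e + 1))).card :=
        (Finset.card_union_of_disjoint hdisj).symm
    _ ≤ H.card := Finset.card_le_card (Finset.union_subset hAH hYH)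
    _ ≤ F'.card := hHc

end Pool.Agent.H688R3.Paging
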