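import Pool.Agent.H688R3.Paging.Upper

/-!
# The lower bound: blocks of repeated requests
-/

set_option autoImplicit false

namespace Pool.Agent.H688R3.Paging

variable {U : Type} [DecidableEq U]

lemma Run.const {k : ℕ} {σ : List U} {C : ℕ → Finset U} (h : Run k σ C) {a b : ℕ} (hab : a ≤ b)
    (hb : b ≤ σ.length) (hr : ∀ f (hf : f < σ.length), a ≤ f → f < b → σ[f] ∈ C a) :
    C b = C a := by
  induction b with
  | zero =>
    obtain rfl : a = 0 := by omega
    rfl
  | succ b ih =>
    rcases Nat.lt_or_ge b a with h1 | h1
    · obtain rfl : a = b + 1 := by omega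
      rfl
    · have h2 := ih h1 (by omega) (fun f hf h3 h4 => hr f hf h3 (by omega))
      rw [(h b (by omega)).eq_of_mem (by rw [h2]; exact hr b (by omega) h1 (by omega)), h2]

/-- The request sequence of `n` blocks: block number `j` consists of `i + 1` requests to `p j`. -/
def blocks (p : ℕ → U) (i n : ℕ) : List U := (List.range (n * (i + 1))).map (fun t => p (t / (i + 1)))

omit [DecidableEq U] in
@[simp] lemma length_blocks (p : ℕ → U) (i n : ℕ) : (blocks p i n).length = n * (i + 1) := by
  simp [blocks]

omit [DecidableEq U] in
lemma getElem_blocks (p : ℕ → U) (i n t : ℕ) (h : t < (blocks p i n).length) :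
    (blocks p i n)[t] = p (t / (i + 1)) := by
  simp [blocks]

omit [DecidableEq U] in
lemma take_blocks (p : ℕ → U) (i n m : ℕ) (h : m ≤ n) :
    (blocks p i n).take (m * (i + 1)) = blocks p i m := by
  unfold blocks
  rw [← List.map_take, List.take_range, min_eq_left (Nat.mul_le_mul_right _ h)]

omit [DecidableEq U] in
lemma blocks_succ (p : ℕ → U) (i n : ℕ) :
    blocks p i (n + 1) = blocks p i n ++ List.replicate (i + 1) (p n) := by
  unfold blocks
  rw [Nat.add_mul, Nat.one_mul, List.range_add, List.map_append]
  congr 1
  rw [List.eq_replicate_iff]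
  refine ⟨by simp, ?_⟩
  intro b hb
  rw [List.map_map, List.mem_map] at hb
  obtain ⟨s, hs, rfl⟩ := hb
  rw [List.mem_range] at hs
  simp only [Function.comp]
  congr 1
  rw [Nat.mul_comm n (i + 1), Nat.mul_add_div (by omega), Nat.div_eq_of_lt hs]
  rfl

omit [DecidableEq U] in
lemma blocks_congr (p p' : ℕ → U) (i n : ℕ) (h : ∀ j < n, p j = p' j) :
    blocks p i n = blocks p' i n := by
  unfold blocks
  apply List.map_congr_left
  intro t ht
  rw [List.mem_range] at ht
  apply h
  rwa [Nat.div_lt_iff_lt_mul (by omega)]

/-- A sequence of pages that is cruel to the algorithm `A`. -/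
lemma exists_cruel {k i : ℕ} {S₀ : Finset U} {A : List U → ℕ → Finset U} (hS : S₀.card ≤ k)
    (hA : IsAlg k S₀ i A) {P : Finset U} (hP : P.card = k + 1) :
    ∃ p : ℕ → U, ∀ j, p j ∈ P ∧ p j ∉ A (blocks p i j) (j * (i + 1)) := by
  classical
  have hpick : ∀ τ : List U, ∃ x, x ∈ P ∧ x ∉ A τ τ.length := by
    intro τ
    have h1 : (A τ τ.length).card ≤ k :=
      (hA.run τ).card_le (by rw [hA.init]; exact hS) τ.length le_rfl
    by_contra hcon
    push Not at hcon
    have := Finset.card_le_card (fun x hx => hcon x hx : P ⊆ A τ τ.length)
    omega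
  choose pick hpick using hpick
  let L : ℕ → List U := fun n => Nat.rec [] (fun _ τ => τ ++ List.replicate (i + 1) (pick τ)) n
  have hL : ∀ n, L n = blocks (fun j => pick (L j)) i n := by
    intro n
    induction n with
    | zero => simp [L, blocks]
    | succ n ih =>
      rw [blocks_succ, ← ih]
  refine ⟨fun j => pick (L j), fun j => ?_⟩
  have h1 := hpick (L j)
  rw [← hL j]
  have h2 : (L j).length = j * (i + 1) := by
    rw [hL j, length_blocks]
  rw [← h2]
  exact h1

/-- On its cruel sequence the algorithm faults in every block. -/
lemma cruel_cost {k i : ℕ} {S₀ : Finset U} {A : List U → ℕ → Finset U}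
    (hA : IsAlg k S₀ i A) {p : ℕ → U}
    (hp : ∀ j, p j ∉ A (blocks p i j) (j * (i + 1))) (n : ℕ) : n ≤ cost A (blocks p i n) := by
  classical
  -- the contents after a whole number of blocks do not depend on the later blocks
  have key : ∀ j ≤ n, A (blocks p i n) (j * (i + 1)) = A (blocks p i j) (j * (i + 1)) := by
    intro j hj
    rcases Nat.eq_zero_or_pos j with rfl | hpos
    · rw [Nat.zero_mul, hA.init, hA.init]
    · obtain ⟨j', rfl⟩ : ∃ j', j = j' + 1 := ⟨j - 1, by omega⟩
      have hconst : ∀ m, j' + 1 ≤ m → A (blocks p i m) ((j' + 1) * (i + 1)) =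
          A (blocks p i m) (j' * (i + 1) + 1) := by
        intro m hm
        have hle : (j' + 1) * (i + 1) ≤ m * (i + 1) := Nat.mul_le_mul_right _ hm
        have hexp : (j' + 1) * (i + 1) = j' * (i + 1) + (i + 1) := by ring
        apply (hA.run (blocks p i m)).const (by omega) (by rw [length_blocks]; exact hle)
        intro f hf h1 h2
        rw [getElem_blocks]
        have h3 : f / (i + 1) = j' := by
          rw [Nat.div_eq_iff (by omega)]
          omega
        rw [h3]
        have hlt : j' * (i + 1) < (blocks p i m).length := by
          rw [length_blocks]; omega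
        have h4 := (hA.step (blocks p i m) (j' * (i + 1)) hlt).mem
        rw [getElem_blocks] at h4
        have h5 : j' * (i + 1) / (i + 1) = j' := Nat.mul_div_cancel _ (by omega)
        rwa [h5] at h4
      rw [hconst n hj, hconst (j' + 1) le_rfl]
      have hle : (j' + 1) * (i + 1) ≤ n * (i + 1) := Nat.mul_le_mul_right _ hj
      have hexp : (j' + 1) * (i + 1) = j' * (i + 1) + (i + 1) := by ring
      apply hA.online
      · rw [length_blocks]; omega
      · rw [length_blocks]; omega
      · have h6 : j' * (i + 1) + 1 + i = (j' + 1) * (i + 1) := by ring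
        rw [h6, take_blocks p i n _ hj, take_blocks p i (j' + 1) _ le_rfl]
  rw [cost_eq]
  have hsub : (Finset.range n).image (fun j => j * (i + 1)) ⊆
      faults (blocks p i n) (A (blocks p i n)) := by
    intro t ht
    rw [Finset.mem_image] at ht
    obtain ⟨j, hj, rfl⟩ := ht
    rw [Finset.mem_range] at hj
    rw [mem_faults]
    have hlt : j * (i + 1) < (blocks p i n).length := by
      rw [length_blocks]
      exact Nat.mul_lt_mul_of_pos_right hj (by omega)
    refine ⟨hlt, ?_⟩
    rw [getElem_blocks, Nat.mul_div_cancel _ (by omega : 0 < i + 1), key j hj.le]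
    exact hp j
  have h1 := Finset.card_le_card hsub
  rw [Finset.card_image_of_injective, Finset.card_range] at h1
  · exact h1
  · intro a b hab
    exact Nat.eq_of_mul_eq_mul_right (by omega : 0 < i + 1) hab

/-- The eviction rule of the algorithm with lookahead `l` that evicts the page whose next visible
request is the farthest. -/
noncomputable def lfdRule [Nonempty U] (l : ℕ) (σ : List U) (t : ℕ) (C : Finset U) : U :=
  far C ((σ.drop (t + 1)).take l) (Classical.arbitrary U)

lemma lfd_isAlg [Nonempty U] {k : ℕ} (hk : 1 ≤ k) {S₀ : Finset U} (hS : S₀.card ≤ k) (l : ℕ) :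
    IsAlg k S₀ l (evRun k S₀ (lfdRule l)) := by
  apply evRun_isAlg k S₀ hS
  · intro σ t C hC
    exact far_mem _ _ (Finset.card_pos.1 (by omega))
  · intro σ σ' t C h1 h2 h3
    have hfut : (σ.drop (t + 1)).take l = (σ'.drop (t + 1)).take l := by
      have := congrArg (List.drop (t + 1)) h3
      rw [List.drop_take, List.drop_take] at this
      simpa using this
    unfold lfdRule
    rw [hfut]

/-- With lookahead `l`, on a sequence of blocks over `k + 1` pages, there is essentially at most
one fault in `min k (l / (i + 1) + 1)` blocks. -/
lemma lfd_cost [Nonempty U] {k : ℕ} (hk : 1 ≤ k) {S₀ P : Finset U} (hS : S₀.card ≤ k)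
    (hSP : S₀ ⊆ P) (hP : P.card = k + 1) (i l : ℕ) {p : ℕ → U} (hp : ∀ j, p j ∈ P) (N : ℕ) :
    cost (evRun k S₀ (lfdRule l)) (blocks p i (min k (l / (i + 1) + 1) * N)) ≤ k + (N + 1) := by
  classical
  set m := min k (l / (i + 1) + 1) with hm
  have hm1 : 1 ≤ m := by
    rw [hm]
    exact le_min hk (Nat.le_add_left 1 _)
  have hmk : m ≤ k := min_le_left _ _
  have hml : m ≤ l / (i + 1) + 1 := min_le_right _ _
  clear_value m
  have hrule : ∀ (σ : List U) (t : ℕ) (C : Finset U), C.card = k → lfdRule l σ t C ∈ C := by
    intro σ t C hC
    exact far_mem _ _ (Finset.card_pos.1 (by omega))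
  set σ := blocks p i (m * N) with hσ
  have hlen : σ.length = m * N * (i + 1) := length_blocks _ _ _
  set B := evRun k S₀ (lfdRule l) σ with hB
  have hBr : Run k σ B := (evRun_run k S₀ hS _ hrule σ).1
  have hσP : ∀ f (hf : f < σ.length), σ[f] ∈ P := by
    intro f hf
    simp only [hσ, getElem_blocks]
    exact hp _
  have hBP : ∀ t ≤ σ.length, B t ⊆ P := by
    intro t ht x hx
    rcases hBr.mem_of_mem (j := 0) (Nat.zero_le t) ht hx with h1 | ⟨f, hf, -, -, h1⟩
    · exact hSP h1
    · rw [← h1]; exact hσP f hf
  -- faults occur only at the beginning of a block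
  have hstart : ∀ t ∈ faults σ B, (t / (i + 1)) * (i + 1) = t := by
    intro t ht
    rw [mem_faults] at ht
    obtain ⟨h1, h2⟩ := ht
    by_contra hne
    have h3 := Nat.div_add_mod t (i + 1)
    rw [mul_comm] at h3
    have h4 : 0 < t % (i + 1) := by
      rcases Nat.eq_zero_or_pos (t % (i + 1)) with h | h
      · omega
      · exact h
    obtain ⟨s, rfl⟩ : ∃ s, t = s + 1 := ⟨t - 1, by
      have := Nat.mod_le t (i + 1)
      omega⟩
    apply h2
    have h5 : σ[s + 1] = σ[s] := by
      simp only [hσ, getElem_blocks]
      congr 1
      have h6 := Nat.mod_lt (s + 1) (by omega : 0 < i + 1)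
      symm
      rw [Nat.div_eq_iff (by omega)]
      generalize (s + 1) / (i + 1) = q at h3 ⊢
      generalize q * (i + 1) = z at h3 ⊢
      omega
    rw [h5]
    exact (hBr s (by omega)).mem
  rw [cost_eq]
  -- split the faults
  set NF := (faults σ B).filter (fun t => (B t).card < k) with hNF
  set FF := (faults σ B).filter (fun t => ¬ (B t).card < k) with hFF
  have hsplit : NF.card + FF.card = (faults σ B).card :=
    Finset.card_filter_add_card_filter_not (s := faults σ B) (fun t => (B t).card < k)
  have hNFk : NF.card ≤ k := by
    have key : ∀ t ≤ σ.length,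
        ∑ s ∈ Finset.range t, (if s ∈ NF then 1 else 0) ≤ (B t).card := by
      intro t
      induction t with
      | zero => intro _; simp
      | succ t ih =>
        intro ht
        have h1 := ih (by omega)
        rw [Finset.sum_range_succ]
        have hst := hBr t (by omega)
        by_cases hc : (B t).card < k
        · rw [hst.eq_of_lt hc]
          by_cases hr : σ[t] ∈ B t
          · have h2 : t ∉ NF := by
              rw [hNF, Finset.mem_filter, mem_faults]
              rintro ⟨⟨_, h3⟩, _⟩
              exact h3 hr
            rw [if_neg h2, Finset.insert_eq_of_mem hr]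
            omega
          · rw [Finset.card_insert_of_notMem hr]
            split_ifs <;> omega
        · have h2 : t ∉ NF := by
            rw [hNF, Finset.mem_filter]
            exact fun h => hc h.2
          have h3 : (B t).card = k := by
            have := hBr.card_le hS t (by omega)
            omega
          rw [if_neg h2, hst.card_eq h3]
          omega
    have h1 := key σ.length le_rfl
    have h2 : ∑ s ∈ Finset.range σ.length, (if s ∈ NF then 1 else 0) = NF.card := by
      rw [Finset.sum_boole]
      simp only [Nat.cast_id]
      congr 1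
      ext s
      rw [Finset.mem_filter, Finset.mem_range]
      constructor
      · exact fun h => h.2
      · intro h
        have h' := h
        rw [hNF, Finset.mem_filter] at h'
        exact ⟨(mem_faults.1 h'.1).1, h⟩
    have h3 := hBr.card_le hS σ.length le_rfl
    omega
  -- after a full fault there is no fault for `m` blocks
  have hgap : ∀ t ∈ FF, ∀ t' ∈ FF, t < t' → t + m * (i + 1) ≤ t' := by
    intro t ht t' ht' htt
    by_contra hcon
    push Not at hcon
    rw [hFF, Finset.mem_filter] at ht ht'
    obtain ⟨htf, htc⟩ := ht
    obtain ⟨htf', -⟩ := ht'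
    have hjt := hstart t htf
    set j := t / (i + 1) with hj
    obtain ⟨htl, htr⟩ := mem_faults.1 htf
    obtain ⟨htl', htr'⟩ := mem_faults.1 htf'
    have hBt : (B t).card = k := by
      have := hBr.card_le hS t htl.le
      omega
    have hσt : σ[t] = p j := by
      simp only [hσ, getElem_blocks]
      rfl
    set x := lfdRule l σ t (B t) with hx
    have hxB : x ∈ B t := hrule σ t _ hBt
    have hB1 : B (t + 1) = insert σ[t] ((B t).erase x) := by
      rw [hB, evRun, dif_pos htl, ← hB, if_neg htr, if_neg htc]
    -- `B t` is everything but `p j`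
    have hBP' : insert σ[t] (B t) = P := by
      apply Finset.eq_of_subset_of_card_le
      · intro y hy
        rw [Finset.mem_insert] at hy
        rcases hy with rfl | hy
        · exact hσP t htl
        · exact hBP t htl.le hy
      · rw [Finset.card_insert_of_notMem htr]
        omega
    -- the pages of the next blocks are different from `x`
    have hne : ∀ j', j < j' → j' < j + m → j' * (i + 1) < σ.length → p j' ≠ x := by
      intro j' h1 h2 h3 h4
      set fut := (σ.drop (t + 1)).take l with hfut
      have h5 : j' * (i + 1) = t + (j' - j) * (i + 1) := by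
        rw [← hjt, ← Nat.add_mul]
        congr 1
        omega
      have h6 : (j' - j) * (i + 1) ≤ l := by
        have h7 : j' - j ≤ l / (i + 1) := by omega
        exact (Nat.mul_le_mul_right _ h7).trans (Nat.div_mul_le_self l (i + 1))
      have h7 : 1 ≤ (j' - j) * (i + 1) := Nat.mul_pos (by omega) (by omega)
      have h8 : (j' - j) * (i + 1) - 1 < fut.length := by
        rw [hfut, List.length_take, List.length_drop]
        omega
      have h9 : fut[(j' - j) * (i + 1) - 1] = x := by
        have h10 : σ[j' * (i + 1)] = p j' := by
          simp only [hσ, getElem_blocks]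
          congr 1
          exact Nat.mul_div_cancel _ (by omega)
        rw [← h4, ← h10]
        simp only [hfut, List.getElem_take, List.getElem_drop]
        congr 1
        omega
      have h10 : fut.idxOf x ≤ (j' - j) * (i + 1) - 1 := by
        conv_lhs => rw [← h9]
        exact idxOf_getElem_le h8
      -- so all pages of `B t` are requested before
      have h11 : B t ⊆ (Finset.Ioc j j').image p := by
        intro y hy
        have h12 : fut.idxOf y ≤ (j' - j) * (i + 1) - 1 :=
          (le_far fut _ hy).trans h10
        have h13 : fut.idxOf y < fut.length := by omega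
        have h14 := List.getElem_idxOf h13
        have h15 : t + 1 + fut.idxOf y < σ.length := by omega
        have h16 : σ[t + 1 + fut.idxOf y] = y := by
          conv_rhs => rw [← h14]
          simp only [hfut, List.getElem_take, List.getElem_drop]
        have h17 : σ[t + 1 + fut.idxOf y] = p ((t + 1 + fut.idxOf y) / (i + 1)) := by
          simp only [hσ, getElem_blocks]
        rw [h17] at h16
        rw [Finset.mem_image]
        refine ⟨_, ?_, h16⟩
        rw [Finset.mem_Ioc]
        have h18 : j ≤ (t + 1 + fut.idxOf y) / (i + 1) := by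
          rw [Nat.le_div_iff_mul_le (by omega)]
          omega
        have h19 : (t + 1 + fut.idxOf y) / (i + 1) ≤ j' := by
          have h20 : t + 1 + fut.idxOf y ≤ j' * (i + 1) := by omega
          calc (t + 1 + fut.idxOf y) / (i + 1) ≤ j' * (i + 1) / (i + 1) :=
                Nat.div_le_div_right h20
            _ = j' := Nat.mul_div_cancel _ (by omega)
        refine ⟨lt_of_le_of_ne h18 ?_, h19⟩
        intro h20
        rw [← h20, ← hσt] at h16
        exact htr (h16 ▸ hy)
      have h12 := (Finset.card_le_card h11).trans Finset.card_image_le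
      rw [Nat.card_Ioc] at h12
      omega
    -- hence there is no fault until `t'`
    have hin : ∀ f (hf : f < σ.length), t ≤ f → f < t + m * (i + 1) → σ[f] ∈ B (t + 1) := by
      intro f hf h1 h2
      have h3 : σ[f] = p (f / (i + 1)) := by
        simp only [hσ, getElem_blocks]
      rw [h3, hB1]
      have h4 : j ≤ f / (i + 1) := by
        rw [Nat.le_div_iff_mul_le (by omega)]
        omega
      have h5 : f / (i + 1) < j + m := by
        rw [Nat.div_lt_iff_lt_mul (by omega), Nat.add_mul]
        omega
      rcases Nat.eq_or_lt_of_le h4 with h6 | h6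
      · rw [← h6, ← hσt]
        exact Finset.mem_insert_self _ _
      · have h7 : p (f / (i + 1)) ≠ x := by
          apply hne _ h6 h5
          have := Nat.div_mul_le_self f (i + 1)
          omega
        have h8 : p (f / (i + 1)) ∈ P := hp _
        rw [← hBP', Finset.mem_insert] at h8
        rw [Finset.mem_insert, Finset.mem_erase]
        rcases h8 with h8 | h8
        · exact Or.inl h8
        · exact Or.inr ⟨h7, h8⟩
    have hconst : B t' = B (t + 1) := by
      apply hBr.const (by omega) htl'.le
      intro f hf h1 h2
      exact hin f hf (by omega) (by omega)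
    apply htr'
    rw [hconst]
    exact hin t' htl' htt.le hcon
  have hFFc : FF.card ≤ N + 1 := by
    have hmi : 0 < m * (i + 1) := Nat.mul_pos (by omega) (by omega)
    have hinj : Set.InjOn (fun t => t / (m * (i + 1))) FF := by
      intro a ha b hb hab
      simp only at hab
      by_contra hne
      rcases Nat.lt_or_gt_of_ne hne with h | h
      · have h1 := hgap a ha b hb h
        have h2 : a / (m * (i + 1)) + 1 ≤ b / (m * (i + 1)) := by
          rw [← Nat.add_div_right _ hmi]
          exact Nat.div_le_div_right h1
        omega
      · have h1 := hgap b hb a ha h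
        have h2 : b / (m * (i + 1)) + 1 ≤ a / (m * (i + 1)) := by
          rw [← Nat.add_div_right _ hmi]
          exact Nat.div_le_div_right h1
        omega
    have hmap : Set.MapsTo (fun t => t / (m * (i + 1))) (FF : Finset ℕ)
        (Finset.range (N + 1) : Finset ℕ) := by
      intro a ha
      rw [Finset.mem_coe, hFF, Finset.mem_filter, mem_faults] at ha
      obtain ⟨⟨h1, -⟩, -⟩ := ha
      rw [Finset.mem_coe, Finset.mem_range]
      simp only
      rw [Nat.div_lt_iff_lt_mul hmi]
      rw [hlen] at h1
      calc a < m * N * (i + 1) := h1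
        _ = N * (m * (i + 1)) := by ring
        _ ≤ (N + 1) * (m * (i + 1)) := Nat.mul_le_mul_right _ (by omega)
    have := Finset.card_le_card_of_injOn _ hmap hinj
    simpa using this
  rw [← hsplit]
  exact add_le_add hNFk hFFc

end Pool.Agent.H688R3.Paging
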