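import Pool.Agent.H688R3.Paging.Basic

/-!
# A marking algorithm is `k`-competitive (classical)
-/

set_option autoImplicit false

namespace Pool.Agent.H688R3.Paging

variable {U : Type} [DecidableEq U]

/-- The marked pages after `t` requests: the pages requested in the current phase. -/
def marks (k : ℕ) (σ : List U) : ℕ → Finset U
  | 0 => ∅
  | t + 1 =>
    if h : t < σ.length then
      if (insert σ[t] (marks k σ t)).card ≤ k then insert σ[t] (marks k σ t) else {σ[t]}
    else marks k σ t

/-- The eviction rule of the marking algorithm: some unmarked page if there is one. -/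
noncomputable def markRule [Nonempty U] (k : ℕ) (σ : List U) (t : ℕ) (C : Finset U) : U :=
  if h : (C \ marks k σ t).Nonempty then h.choose
  else far C [] (Classical.arbitrary U)

lemma markRule_mem [Nonempty U] (k : ℕ) (σ : List U) (t : ℕ) (C : Finset U) (hC : C.Nonempty) :
    markRule k σ t C ∈ C := by
  unfold markRule
  split_ifs with h
  · exact (Finset.mem_sdiff.1 h.choose_spec).1
  · exact far_mem _ _ hC

lemma marks_online (k : ℕ) (σ σ' : List U) (t : ℕ) (h1 : t ≤ σ.length) (h2 : t ≤ σ'.length)
    (h3 : σ.take t = σ'.take t) : marks k σ t = marks k σ' t := by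
  induction t with
  | zero => rfl
  | succ t ih =>
    have h4 : σ.take t = σ'.take t := by
      have h5 := congrArg (List.take t) h3
      rwa [List.take_take, List.take_take, min_eq_left (by omega)] at h5
    have hr : σ[t] = σ'[t] := by
      have h4 : (σ.take (t + 1))[t]'(by simp; omega) =
        (σ'.take (t + 1))[t]'(by simp; omega) := by simp only [h3]
      simpa using h4
    have h6 := ih (by omega) (by omega) h4
    unfold marks
    rw [dif_pos (by omega), dif_pos (by omega), h6, hr]

lemma mark_isAlg [Nonempty U] {k : ℕ} (hk : 1 ≤ k) {S₀ : Finset U} (hS : S₀.card ≤ k) (i : ℕ) :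
    IsAlg k S₀ i (evRun k S₀ (markRule k)) := by
  apply evRun_isAlg k S₀ hS
  · intro σ t C hC
    exact markRule_mem k σ t C (Finset.card_pos.1 (by omega))
  · intro σ σ' t C h1 h2 h3
    have h4 : σ.take t = σ'.take t := by
      have h5 := congrArg (List.take t) h3
      rwa [List.take_take, List.take_take, min_eq_left (by omega)] at h5
    unfold markRule
    rw [marks_online k σ σ' t (by omega) (by omega) h4]

/-- Every algorithm has at least a `1/k` fraction of the faults of the marking algorithm, up to a
constant. -/
theorem mark_cost_le [Nonempty U] {k : ℕ} (hk : 1 ≤ k) {S₀ : Finset U} (hS : S₀.card ≤ k)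
    {σ : List U} {B : ℕ → Finset U} (hB : Run k σ B) (hB0 : B 0 = S₀) :
    (faults σ (evRun k S₀ (markRule k) σ)).card ≤ k * (faults σ B).card + k := by
  classical
  have hrule : ∀ (σ : List U) (t : ℕ) (C : Finset U), C.card = k → markRule k σ t C ∈ C := by
    intro σ t C hC
    exact markRule_mem k σ t C (Finset.card_pos.1 (by omega))
  set A := evRun k S₀ (markRule k) σ with hAdef
  have hA : Run k σ A := (evRun_run k S₀ hS _ hrule σ).1
  set M := marks k σ with hM
  have key : ∀ t ≤ σ.length,
      ((t = 0) ∨ M t ⊆ A t) ∧ (M t).card ≤ k ∧
      ∃ (N : ℕ) (S : Finset U), S.card ≤ k ∧ B t ⊆ S ∪ M t ∧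
        ∑ s ∈ Finset.range t, (if s ∈ faults σ A then 1 else 0) ≤ k * N + (M t).card ∧
        N + (M t \ S).card ≤ ∑ s ∈ Finset.range t, (if s ∈ faults σ B then 1 else 0) := by
    intro t
    induction t with
    | zero =>
      intro _
      refine ⟨Or.inl rfl, by simp [hM, marks], 0, S₀, hS, ?_, by simp, by simp [hM, marks]⟩
      rw [hB0]
      exact Finset.subset_union_left
    | succ t ih =>
      intro ht
      obtain ⟨h1, h2, N, S, h3, h4, h5, h6⟩ := ih (by omega)
      have hMA : M t ⊆ A t := by
        rcases h1 with rfl | h1
        · simp [hM, marks]
        · exact h1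
      have hAt := hA t (by omega)
      have hBt := hB t (by omega)
      have hMs : M (t + 1) = if (insert σ[t] (M t)).card ≤ k then insert σ[t] (M t)
          else {σ[t]} := by
        rw [hM, marks, dif_pos (by omega)]
      have hAc : (A t).card ≤ k := hA.card_le hS t (by omega)
      rw [Finset.sum_range_succ, Finset.sum_range_succ]
      set a := ∑ s ∈ Finset.range t, (if s ∈ faults σ A then 1 else 0) with ha
      set b := ∑ s ∈ Finset.range t, (if s ∈ faults σ B then 1 else 0) with hb
      have hfA : t ∈ faults σ A ↔ σ[t] ∉ A t := by
        rw [mem_faults]
        exact ⟨fun h => h.2, fun h => ⟨by omega, h⟩⟩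
      have hfB : t ∈ faults σ B ↔ σ[t] ∉ B t := by
        rw [mem_faults]
        exact ⟨fun h => h.2, fun h => ⟨by omega, h⟩⟩
      -- the new lower bound on the faults of `B`
      have h7 : N + (insert σ[t] (M t) \ S).card ≤ b + (if t ∈ faults σ B then 1 else 0) := by
        by_cases hr : σ[t] ∈ S ∪ M t
        · have h8 : insert σ[t] (M t) \ S ⊆ M t \ S := by
            intro x hx
            rw [Finset.mem_sdiff, Finset.mem_insert] at hx
            rw [Finset.mem_sdiff]
            rcases hx.1 with rfl | h9
            · rw [Finset.mem_union] at hr
              exact ⟨hr.resolve_left hx.2, hx.2⟩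
            · exact ⟨h9, hx.2⟩
          have := Finset.card_le_card h8
          omega
        · have h8 : t ∈ faults σ B := hfB.2 (fun h => hr (h4 h))
          rw [if_pos h8]
          have h9 : insert σ[t] (M t) \ S ⊆ insert σ[t] (M t \ S) := by
            intro x hx
            rw [Finset.mem_sdiff, Finset.mem_insert] at hx
            rw [Finset.mem_insert, Finset.mem_sdiff]
            rcases hx.1 with rfl | h9
            · exact Or.inl rfl
            · exact Or.inr ⟨h9, hx.2⟩
          have := (Finset.card_le_card h9).trans (Finset.card_insert_le _ _)
          omega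
      by_cases hc : (insert σ[t] (M t)).card ≤ k
      · -- the phase goes on
        rw [if_pos hc] at hMs
        refine ⟨Or.inr ?_, by rw [hMs]; exact hc, N, S, h3, ?_, ?_, by rw [hMs]; exact h7⟩
        · -- marked pages stay in the memory
          rw [hMs]
          intro x hx
          rw [Finset.mem_insert] at hx
          rcases hx with rfl | hx
          · exact hAt.mem
          · by_contra hxn
            obtain ⟨h8, h9, h10⟩ := hAt.of_evicted (hMA hx) hxn
            have hev : A (t + 1) = insert σ[t] ((A t).erase (markRule k σ t (A t))) := by
              rw [hAdef, evRun, dif_pos (by omega), ← hAdef, if_neg h8, if_neg (by omega)]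
            have h11 : x = markRule k σ t (A t) := by
              by_contra hne
              apply hxn
              rw [hev]
              exact Finset.mem_insert_of_mem (Finset.mem_erase.2 ⟨hne, hMA hx⟩)
            -- there is an unmarked page
            have h12 : (A t \ M t).Nonempty := by
              by_contra hemp
              rw [Finset.not_nonempty_iff_eq_empty, Finset.sdiff_eq_empty_iff_subset] at hemp
              have h13 : M t = A t := Finset.Subset.antisymm hMA hemp
              rw [h13, Finset.card_insert_of_notMem h8] at hc
              omega
            have h13 : markRule k σ t (A t) ∈ A t \ M t := by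
              unfold markRule
              rw [dif_pos h12]
              exact h12.choose_spec
            rw [← h11, Finset.mem_sdiff] at h13
            exact h13.2 hx
        · rw [hMs]
          intro x hx
          have h8 := hBt.subset hx
          rw [Finset.mem_insert] at h8
          rw [Finset.mem_union, Finset.mem_insert]
          rcases h8 with h8 | h8
          · exact Or.inr (Or.inl h8)
          · have h9 := h4 h8
            rw [Finset.mem_union] at h9
            rcases h9 with h9 | h9
            · exact Or.inl h9
            · exact Or.inr (Or.inr h9)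
        · rw [hMs]
          by_cases hr : σ[t] ∈ A t
          · rw [if_neg (fun h => hfA.1 h hr)]
            have := Finset.card_le_card (Finset.subset_insert σ[t] (M t))
            omega
          · rw [if_pos (hfA.2 hr), Finset.card_insert_of_notMem (fun h => hr (hMA h))]
            omega
      · -- a new phase begins
        rw [if_neg hc] at hMs
        have hrM : σ[t] ∉ M t := by
          intro h
          rw [Finset.insert_eq_of_mem h] at hc
          exact hc h2
        rw [Finset.card_insert_of_notMem hrM] at hc
        have hMk : (M t).card = k := by omega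
        have h8 : 1 ≤ (insert σ[t] (M t) \ S).card := by
          have h9 := Finset.le_card_sdiff S (insert σ[t] (M t))
          rw [Finset.card_insert_of_notMem hrM] at h9
          omega
        have hMA' : M t = A t := Finset.eq_of_subset_of_card_le hMA (by omega)
        refine ⟨Or.inr ?_, by rw [hMs]; simpa using hk,
          b + (if t ∈ faults σ B then 1 else 0), B (t + 1), ?_, Finset.subset_union_left, ?_, ?_⟩
        · rw [hMs, Finset.singleton_subset_iff]
          exact hAt.mem
        · exact hBt.card_le (hB.card_le (by rw [hB0]; exact hS) t (by omega))
        · rw [hMs, Finset.card_singleton]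
          have h9 : k * (N + 1) ≤ k * (b + (if t ∈ faults σ B then 1 else 0)) :=
            Nat.mul_le_mul_left k (by omega)
          rw [Nat.mul_add, Nat.mul_one] at h9
          have h10 : (if t ∈ faults σ A then 1 else 0) ≤ 1 := by split_ifs <;> omega
          omega
        · rw [hMs]
          have : ({σ[t]} : Finset U) \ B (t + 1) = ∅ := by
            rw [Finset.sdiff_eq_empty_iff_subset, Finset.singleton_subset_iff]
            exact hBt.mem
          rw [this]
          simp
  have hcount : ∀ C : ℕ → Finset U,
      ∑ s ∈ Finset.range σ.length, (if s ∈ faults σ C then 1 else 0) = (faults σ C).card := by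
    intro C
    rw [Finset.sum_boole]
    simp only [Nat.cast_id]
    congr 1
    ext s
    rw [Finset.mem_filter, Finset.mem_range]
    constructor
    · exact fun h => h.2
    · exact fun h => ⟨(mem_faults.1 h).1, h⟩
  obtain ⟨-, h2, N, S, h3, h4, h5, h6⟩ := key σ.length le_rfl
  rw [hcount] at h5 h6
  have h7 : k * N ≤ k * (faults σ B).card := Nat.mul_le_mul_left k (by omega)
  omega

end Pool.Agent.H688R3.Paging
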