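import Pool.Agent.H688R3.Paging.Lower
import Pool.Agent.H688R3.Paging.Marking

/-!
# The comparative ratio of paging algorithms with different lookaheads
-/

set_option autoImplicit false

open scoped ENNReal NNReal

namespace Pool.Agent.H688R3.Paging

variable {U : Type} [DecidableEq U]

lemma ceil_eq (i l : ℕ) : ⌈((l : ℝ) + 1) / ((i : ℝ) + 1)⌉₊ = l / (i + 1) + 1 := by
  have hi : (0 : ℝ) < (i : ℝ) + 1 := by positivity
  rw [Nat.ceil_eq_iff (Nat.succ_ne_zero _)]
  constructor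
  · rw [lt_div_iff₀ hi]
    have h1 : l / (i + 1) * (i + 1) ≤ l := Nat.div_mul_le_self l (i + 1)
    have h2 : ((l / (i + 1) : ℕ) : ℝ) * ((i : ℝ) + 1) ≤ l := by exact_mod_cast h1
    have h3 : ((l / (i + 1) + 1 : ℕ) : ℝ) - 1 = ((l / (i + 1) : ℕ) : ℝ) := by push_cast; ring
    first
    | (rw [h3]; linarith)
    | (push_cast at h2 ⊢; linarith)
  · rw [div_le_iff₀ hi]
    have h1 : l + 1 ≤ (l / (i + 1) + 1) * (i + 1) := by
      have := Nat.lt_div_mul_add (a := l) (b := i + 1) (by omega)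
      rw [Nat.add_mul, Nat.one_mul]
      omega
    exact_mod_cast h1

lemma ratio_le {A B : List U → ℕ → Finset U} (c b : ℕ)
    (h : ∀ σ, cost A σ ≤ c * cost B σ + b) : ratio A B ≤ c := by
  apply sInf_le
  refine ⟨b, fun σ => ?_⟩
  have := h σ
  exact_mod_cast this

lemma IsAlg.mono {k : ℕ} {S₀ : Finset U} {i l : ℕ} {A : List U → ℕ → Finset U}
    (h : IsAlg k S₀ l A) (hil : l ≤ i) : IsAlg k S₀ i A :=
  ⟨h.init, h.step, fun σ σ' t h1 h2 h3 => h.online σ σ' t h1 h2 (take_of_take h3 (by omega))⟩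

theorem upper [Nonempty U] {k : ℕ} (hk : 1 ≤ k) {S₀ : Finset U} (hS : S₀.card ≤ k) (i l : ℕ)
    {B : List U → ℕ → Finset U} (hB : IsAlg k S₀ l B) :
    ⨅ A ∈ 𝓛 k S₀ i, ratio A B ≤ ((min k (l / (i + 1) + 1) : ℕ) : ℝ≥0∞) := by
  have h1 : ⨅ A ∈ 𝓛 k S₀ i, ratio A B ≤ (k : ℝ≥0∞) := by
    refine iInf₂_le_of_le (evRun k S₀ (markRule k)) (mark_isAlg hk hS i) ?_
    apply ratio_le k k
    intro σ
    rw [cost_eq, cost_eq]
    exact mark_cost_le hk hS (hB.run σ) (hB.init σ)
  have h2 : ⨅ A ∈ 𝓛 k S₀ i, ratio A B ≤ ((l / (i + 1) + 1 : ℕ) : ℝ≥0∞) := by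
    rcases Nat.lt_or_ge i l with hil | hil
    · obtain ⟨Δ, hΔ⟩ : ∃ Δ, l = i + Δ := ⟨l - i, by omega⟩
      have hΔ1 : 1 ≤ Δ := by omega
      have hq : 1 + ((Δ - 1) / (min (i + 1) Δ) + 1) = l / (i + 1) + 1 := by
        have h3 : (Δ - 1) / (min (i + 1) Δ) = (Δ - 1) / (i + 1) := by
          rcases Nat.le_total (i + 1) Δ with h | h
          · rw [min_eq_left h]
          · rw [min_eq_right h, Nat.div_eq_of_lt (by omega), Nat.div_eq_of_lt (by omega)]
        have h4 : (Δ - 1) / (i + 1) + 1 = l / (i + 1) := by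
          rw [← Nat.add_div_right _ (by omega)]
          congr 1
          omega
        omega
      refine iInf₂_le_of_le (evRun k S₀ (simRule B Δ i)) ?_ ?_
      · apply evRun_isAlg k S₀ hS
        · intro σ t C hC
          exact simRule_mem B Δ i σ t C (Finset.card_pos.1 (by omega))
        · intro σ σ' t C h3 h4 h5
          exact simRule_online hB hΔ σ σ' t C h3 h4 h5
      · apply ratio_le _ 0
        intro σ
        rw [← hq]
        exact sim_cost_le hk hS hΔ1 hB hΔ σ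
    · refine iInf₂_le_of_le B (hB.mono hil) ?_
      apply ratio_le _ 0
      intro σ
      exact Nat.le_mul_of_pos_left _ (Nat.succ_pos _)
  rcases min_choice k (l / (i + 1) + 1) with h | h
  · rw [h]; exact h1
  · rw [h]; exact h2

theorem lower [Nonempty U] {k : ℕ} (hk : 1 ≤ k) {S₀ P : Finset U} (hS : S₀.card ≤ k)
    (hSP : S₀ ⊆ P) (hP : P.card = k + 1) (i l : ℕ) {A : List U → ℕ → Finset U}
    (hA : IsAlg k S₀ i A) :
    ((min k (l / (i + 1) + 1) : ℕ) : ℝ≥0∞) ≤ ratio A (evRun k S₀ (lfdRule l)) := by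
  obtain ⟨p, hp⟩ := exists_cruel hS hA hP
  apply le_sInf
  rintro c ⟨b, hb⟩
  set m := min k (l / (i + 1) + 1) with hm
  have hm1 : 1 ≤ m := by
    rw [hm]
    exact le_min hk (Nat.le_add_left 1 _)
  rcases eq_or_ne c ∞ with hc | hc
  · rw [hc]; exact le_top
  lift c to ℝ≥0 using hc
  -- the inequality for all `N`
  have key : ∀ N : ℕ, (m : ℝ) * N ≤ c * (k + N + 1) + b := by
    intro N
    have h1 := hb (blocks p i (m * N))
    have h2 := cruel_cost hA (fun j => (hp j).2) (m * N)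
    have h3 := lfd_cost hk hS hSP hP i l (fun j => (hp j).1) N
    rw [← hm] at h3
    have h4 : (cost A (blocks p i (m * N)) : ℝ≥0) ≤
        c * cost (evRun k S₀ (lfdRule l)) (blocks p i (m * N)) + b := by
      exact_mod_cast h1
    have h5 : (cost A (blocks p i (m * N)) : ℝ) ≤
        c * cost (evRun k S₀ (lfdRule l)) (blocks p i (m * N)) + b := by
      exact_mod_cast h4
    have h6 : ((m * N : ℕ) : ℝ) ≤ cost A (blocks p i (m * N)) := by exact_mod_cast h2
    have h7 : (cost (evRun k S₀ (lfdRule l)) (blocks p i (m * N)) : ℝ) ≤ k + (N + 1) := by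
      exact_mod_cast h3
    calc (m : ℝ) * N = ((m * N : ℕ) : ℝ) := by push_cast; ring
      _ ≤ c * cost (evRun k S₀ (lfdRule l)) (blocks p i (m * N)) + b := h6.trans h5
      _ ≤ c * (k + (N + 1)) + b := by gcongr
      _ = c * (k + N + 1) + b := by ring
  have h : (m : ℝ) ≤ c := by
    by_contra hcon
    push Not at hcon
    obtain ⟨N, hN⟩ := exists_nat_gt (((c : ℝ) * (k + 1) + b) / (m - c))
    have h1 := key N
    rw [div_lt_iff₀ (by linarith)] at hN
    nlinarith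
  have h' : (m : ℝ≥0) ≤ c := by exact_mod_cast h
  exact_mod_cast h'

/-- The comparative ratio for all lookaheads. -/
theorem comparativeRatio_eq {k : ℕ} (hk : 1 ≤ k) (hU : ∃ P : Finset U, k < P.card)
    {S₀ : Finset U} (hS : S₀.card ≤ k) (i l : ℕ) :
    comparativeRatio (𝓛 k S₀ i) (𝓛 k S₀ l) =
      ((min k ⌈((l : ℝ) + 1) / ((i : ℝ) + 1)⌉₊ : ℕ) : ℝ≥0∞) := by
  obtain ⟨Q, hQ⟩ := hU
  obtain ⟨P, hSP, -, hP⟩ : ∃ P : Finset U, S₀ ⊆ P ∧ P ⊆ S₀ ∪ Q ∧ P.card = k + 1 := by
    apply Finset.exists_subsuperset_card_eq Finset.subset_union_left (by omega)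
    exact le_trans hQ (Finset.card_le_card Finset.subset_union_right)
  have : Nonempty U := by
    obtain ⟨x, -⟩ := Finset.card_pos.1 (show 0 < P.card by omega)
    exact ⟨x⟩
  rw [ceil_eq]
  apply le_antisymm
  · unfold comparativeRatio
    exact iSup₂_le fun B hB => upper hk hS i l hB
  · unfold comparativeRatio
    refine le_iSup₂_of_le (evRun k S₀ (lfdRule l)) (lfd_isAlg hk hS l) ?_
    exact le_iInf₂ fun A hA => lower hk hS hSP hP i l hA

end Pool.Agent.H688R3.Paging
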