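import Pool.Agent.H688R3.Paging.Core
import Pool.Agent.H688R3.Paging.Assign

/-!
# The upper bound: simulating an algorithm with more lookahead
-/

set_option autoImplicit false

namespace Pool.Agent.H688R3.Paging

variable {U : Type} [DecidableEq U]

lemma idxOf_getElem_le {l : List U} {n : ℕ} (h : n < l.length) : l.idxOf l[n] ≤ n := by
  have h1 : l[n] ∈ l.take (n + 1) := by
    rw [List.mem_take_iff_getElem]
    exact ⟨n, by omega, rfl⟩
  have h2 := (List.mem_take_iff_idxOf_lt (List.getElem_mem h)).1 h1
  omega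

/-- The pages of `C` that are known to be absent from `B` at request number `t`. -/
def garbage (B : List U → ℕ → Finset U) (Δ : ℕ) (σ : List U) (t : ℕ) (C : Finset U) : Finset U :=
  C.filter (fun x => x ∉ B σ (t + 1 - Δ) ∧ x ∉ (σ.take (t + 1)).drop (t + 1 - Δ))

/-- The eviction rule: a page that `B` is known not to have; if there is none, the page whose next
request is the farthest among the visible ones. -/
noncomputable def simRule [Nonempty U] (B : List U → ℕ → Finset U) (Δ i : ℕ) (σ : List U) (t : ℕ)
    (C : Finset U) : U :=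
  if h : (garbage B Δ σ t C).Nonempty then h.choose
  else far C ((σ.drop (t + 1)).take i) (Classical.arbitrary U)

lemma simRule_mem [Nonempty U] (B : List U → ℕ → Finset U) (Δ i : ℕ) (σ : List U) (t : ℕ)
    (C : Finset U) (hC : C.Nonempty) : simRule B Δ i σ t C ∈ C := by
  unfold simRule
  split_ifs with h
  · exact (Finset.mem_filter.1 h.choose_spec).1
  · exact far_mem _ _ hC

lemma take_of_take {σ σ' : List U} {m n : ℕ} (h : σ.take n = σ'.take n) (hmn : m ≤ n) :
    σ.take m = σ'.take m := by
  have h5 := congrArg (List.take m) h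
  rwa [List.take_take, List.take_take, min_eq_left hmn] at h5

lemma simRule_online [Nonempty U] {k : ℕ} {S₀ : Finset U} {B : List U → ℕ → Finset U} {l Δ i : ℕ}
    (hB : IsAlg k S₀ l B) (hl : l = i + Δ) (σ σ' : List U) (t : ℕ) (C : Finset U)
    (h1 : t < σ.length) (h2 : t < σ'.length) (h3 : σ.take (t + 1 + i) = σ'.take (t + 1 + i)) :
    simRule B Δ i σ t C = simRule B Δ i σ' t C := by
  have hBs : B σ (t + 1 - Δ) = B σ' (t + 1 - Δ) := by
    rcases Nat.eq_zero_or_pos (t + 1 - Δ) with h | h
    · rw [h, hB.init, hB.init]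
    · obtain ⟨s, hs⟩ : ∃ s, t + 1 - Δ = s + 1 := ⟨t - Δ, by omega⟩
      rw [hs]
      apply hB.online σ σ' s (by omega) (by omega)
      have : s + 1 + l = t + 1 + i := by omega
      rw [this]
      exact h3
  have hpast : (σ.take (t + 1)).drop (t + 1 - Δ) = (σ'.take (t + 1)).drop (t + 1 - Δ) := by
    rw [take_of_take h3 (by omega)]
  have hfut : (σ.drop (t + 1)).take i = (σ'.drop (t + 1)).take i := by
    have := congrArg (List.drop (t + 1)) h3
    rw [List.drop_take, List.drop_take] at this
    simpa using this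
  unfold simRule garbage
  simp only [hBs, hpast, hfut]

lemma mem_past {σ : List U} {t s : ℕ} {x : U} (ht : t < σ.length)
    (hx : x ∈ (σ.take (t + 1)).drop s) :
    ∃ (f : ℕ) (hf : f < σ.length), s ≤ f ∧ f ≤ t ∧ σ[f] = x := by
  rw [List.mem_iff_getElem] at hx
  obtain ⟨n, hn, h⟩ := hx
  rw [List.length_drop, List.length_take] at hn
  refine ⟨s + n, by omega, by omega, by omega, ?_⟩
  rw [← h, List.getElem_drop, List.getElem_take]

lemma past_mem {σ : List U} {t s f : ℕ} (hf : f < σ.length) (h1 : s ≤ f) (h2 : f ≤ t) :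
    σ[f] ∈ (σ.take (t + 1)).drop s := by
  rw [List.mem_iff_getElem]
  refine ⟨f - s, ?_, ?_⟩
  · rw [List.length_drop, List.length_take]
    omega
  · rw [List.getElem_drop, List.getElem_take]
    congr 1
    omega

/-- The main upper bound. -/
theorem sim_cost_le [Nonempty U] {k : ℕ} (hk : 1 ≤ k) {S₀ : Finset U} (hS : S₀.card ≤ k)
    {B : List U → ℕ → Finset U} {l Δ i : ℕ} (hΔ : 1 ≤ Δ)
    (hB : IsAlg k S₀ l B) (_hl : l = i + Δ) (σ : List U) :
    cost (evRun k S₀ (simRule B Δ i)) σ ≤ (1 + ((Δ - 1) / (min (i + 1) Δ) + 1)) * cost B σ := by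
  classical
  set w := min (i + 1) Δ with hw
  have hw1 : 1 ≤ w := by omega
  have hwΔ : w ≤ Δ := by omega
  have hwi : w ≤ i + 1 := by omega
  have hrule : ∀ σ t C, C.card = k → simRule B Δ i σ t C ∈ C := by
    intro σ t C hC
    exact simRule_mem B Δ i σ t C (Finset.card_pos.1 (by omega))
  set A := evRun k S₀ (simRule B Δ i) σ with hAdef
  have hA : Run k σ A := (evRun_run k S₀ hS _ hrule σ).1
  have hBr : Run k σ (B σ) := hB.run σ
  have h0 : A 0 = B σ 0 := by rw [hB.init]; rfl
  have hA0 : (A 0).card ≤ k := hS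
  rw [cost_eq, cost_eq, ← hAdef]
  refine (card_faults_le hA hBr h0 hA0).trans ?_
  set E := (faults σ A).filter (fun t => Err A (B σ) t) with hE
  set F := faults σ (B σ) with hF
  suffices hmain : E.card ≤ ((Δ - 1) / w + 1) * F.card by
    calc F.card + E.card ≤ F.card + ((Δ - 1) / w + 1) * F.card := by omega
      _ = (1 + ((Δ - 1) / w + 1)) * F.card := by ring
  -- what happens at an error
  have hEfact : ∀ e ∈ E, ∃ (he : e < σ.length), σ[e] ∉ A e ∧ (A e).card = k ∧
      A e \ A (e + 1) = {simRule B Δ i σ e (A e)} ∧ garbage B Δ σ e (A e) = ∅ := by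
    intro e he
    rw [hE, Finset.mem_filter, mem_faults] at he
    obtain ⟨⟨hel, hr⟩, ⟨a, ha⟩⟩ := he
    rw [Finset.mem_inter, Finset.mem_sdiff] at ha
    obtain ⟨⟨ha1, ha2⟩, ha3⟩ := ha
    obtain ⟨-, hc, hA1⟩ := (hA e hel).of_evicted ha1 ha2
    have hev : A (e + 1) = insert σ[e] ((A e).erase (simRule B Δ i σ e (A e))) := by
      rw [hAdef, evRun, dif_pos hel, ← hAdef, if_neg hr, if_neg (by omega)]
    have hmem : simRule B Δ i σ e (A e) ∈ A e := hrule σ e _ hc
    have hne : simRule B Δ i σ e (A e) ≠ σ[e] := fun h => hr (h ▸ hmem)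
    have hs : A e \ A (e + 1) = {simRule B Δ i σ e (A e)} := by
      ext x
      rw [hev, Finset.mem_sdiff, Finset.mem_insert, Finset.mem_erase, Finset.mem_singleton]
      constructor
      · rintro ⟨h1, h2⟩
        by_contra h3
        exact h2 (Or.inr ⟨h3, h1⟩)
      · rintro rfl
        refine ⟨hmem, ?_⟩
        rintro (h1 | h1)
        · exact hne h1
        · exact h1.1 rfl
    refine ⟨hel, hr, hc, hs, ?_⟩
    by_contra hg
    have hg' : (garbage B Δ σ e (A e)).Nonempty := Finset.nonempty_iff_ne_empty.2 hg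
    have hchoose : simRule B Δ i σ e (A e) = hg'.choose := by
      unfold simRule
      rw [dif_pos hg']
    have haeq : a = hg'.choose := by
      have : a ∈ A e \ A (e + 1) := Finset.mem_sdiff.2 ⟨ha1, ha2⟩
      rw [hs, Finset.mem_singleton] at this
      rw [this, hchoose]
    have hspec := hg'.choose_spec
    rw [← haeq] at hspec
    unfold garbage at hspec
    rw [Finset.mem_filter] at hspec
    refine hBr.not_mem (j := e + 1 - Δ) (e := e + 1) (by omega) (by omega) hspec.2.1 ?_ ha3
    intro f hf h1 h2 h3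
    exact hspec.2.2 (h3 ▸ past_mem hf h1 (by omega))
  have hElt : ∀ e ∈ E, e < σ.length := fun e he => (hEfact e he).1
  have hFlt : ∀ f ∈ F, f < σ.length := fun f hf => (mem_faults.1 hf).1
  -- a page that was requested after `u` and is missing from `B` after `e` was evicted by `B`
  have hevB : ∀ (u e : ℕ) (p : U) (f : ℕ) (hf : f < σ.length), u ≤ f → f ≤ e → e < σ.length →
      σ[f] = p → p ∉ B σ (e + 1) → ∃ g ∈ F, u < g ∧ g ≤ e ∧ p ∈ B σ g \ B σ (g + 1) := by
    intro u e p f hf h1 h2 h3 h4 h5
    have h6 : p ∈ B σ (f + 1) := h4 ▸ (hBr f hf).mem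
    obtain ⟨g, h7, h8, h9⟩ := hBr.exists_evict (j := f + 1) (e := e + 1) (by omega) h6 h5
    refine ⟨g, ?_, by omega, by omega, h9⟩
    rw [hF, mem_faults]
    rw [Finset.mem_sdiff] at h9
    exact ⟨by omega, ((hBr g (by omega)).of_evicted h9.1 h9.2).1⟩
  apply card_le_of_windows E F w Δ hw1 hwΔ
  intro e he
  obtain ⟨hel, her, hec, hes, heg⟩ := hEfact e he
  -- the errors of the window whose page has been requested again
  set Z := E.filter (fun u => u < e ∧ e < u + w ∧
    ∃ f, ∃ hf : f < σ.length, u < f ∧ f ≤ e ∧ σ[f] = simRule B Δ i σ u (A u)) with hZ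
  by_cases hZe : Z.Nonempty
  · right
    set u := Z.max' hZe with hu
    have huZ : u ∈ Z := Z.max'_mem hZe
    rw [hZ, Finset.mem_filter] at huZ
    obtain ⟨huE, hue, huw, f, hf, huf, hfe, hfr⟩ := huZ
    refine ⟨u, hue, huw, ?_⟩
    obtain ⟨hul, hur, huc, hus, hug⟩ := hEfact u huE
    apply core hA hBr h0 hA0 hel
    · intro x hx
      rw [Finset.mem_filter] at hx
      exact ⟨hx.2.1, (Finset.mem_filter.1 hx.1).2⟩
    · intro x hx a ha t hxt hte
      rw [Finset.mem_filter] at hx
      obtain ⟨hxE, hxe, hux⟩ := hx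
      obtain ⟨hxl, hxr, hxc, hxs, hxg⟩ := hEfact x hxE
      have ha' := ha
      rw [hxs, Finset.mem_singleton] at ha'
      refine hA.not_mem (j := x + 1) (e := t) (by omega) (by omega)
        (Finset.mem_sdiff.1 ha).2 ?_
      intro g hg h1 h2 h3
      -- otherwise `x ∈ Z`
      have hxZ : x ∈ Z := by
        rw [hZ, Finset.mem_filter]
        exact ⟨hxE, by omega, by omega, g, hg, by omega, by omega, by rw [h3, ha']⟩
      have := Z.le_max' x hxZ
      omega
    · intro g hg
      exact hFlt g (Finset.mem_filter.1 hg).1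
    · intro x hx g h1 h2 h3
      rw [Finset.mem_filter] at hx
      exact Finset.mem_filter.2 ⟨h3, h2, by omega⟩
    · intro p hp hpB
      -- `p` was requested in `[u, e]`
      have hreq : ∃ (g : ℕ) (hg : g < σ.length), u ≤ g ∧ g ≤ e ∧ σ[g] = p := by
        rcases hA.mem_of_mem (j := u) (e := e + 1) (by omega) (by omega) hp with h1 | h1
        · -- `p ∈ A u`: its next request is not later than that of the evicted page
          set fut := (σ.drop (u + 1)).take i with hfut
          have hflen : f - (u + 1) < fut.length := by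
            rw [hfut, List.length_take, List.length_drop]
            omega
          have hfget : fut[f - (u + 1)] = σ[f] := by
            simp only [hfut, List.getElem_take, List.getElem_drop]
            congr 1
            omega
          have h2 : fut.idxOf (simRule B Δ i σ u (A u)) ≤ f - (u + 1) := by
            rw [← hfr, ← hfget]
            exact idxOf_getElem_le hflen
          have h3 : simRule B Δ i σ u (A u) = far (A u) fut (Classical.arbitrary U) := by
            unfold simRule
            rw [dif_neg]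
            rw [hug]
            simp
          have h4 : fut.idxOf p ≤ f - (u + 1) := by
            rw [h3] at h2
            exact (le_far fut _ h1).trans h2
          have h5 : fut.idxOf p < fut.length := by omega
          refine ⟨u + 1 + fut.idxOf p, ?_, by omega, by omega, ?_⟩
          · omega
          · have h6 := List.getElem_idxOf h5
            conv_rhs => rw [← h6]
            simp only [hfut, List.getElem_take, List.getElem_drop]
        · obtain ⟨g, hg, h2, h3, h4⟩ := h1
          exact ⟨g, hg, h2, by omega, h4⟩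
      obtain ⟨g, hg, h1, h2, h3⟩ := hreq
      obtain ⟨g', h4, h5, h6, h7⟩ := hevB u e p g hg h1 h2 hel h3 hpB
      exact ⟨g', Finset.mem_filter.2 ⟨h4, h6, h5⟩, h7⟩
  · left
    apply core hA hBr h0 hA0 hel
    · intro x hx
      rw [Finset.mem_filter] at hx
      exact ⟨hx.2.1, (Finset.mem_filter.1 hx.1).2⟩
    · intro x hx a ha t hxt hte
      rw [Finset.mem_filter] at hx
      obtain ⟨hxE, hxe, hux⟩ := hx
      obtain ⟨hxl, hxr, hxc, hxs, hxg⟩ := hEfact x hxE
      have ha' := ha
      rw [hxs, Finset.mem_singleton] at ha'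
      refine hA.not_mem (j := x + 1) (e := t) (by omega) (by omega)
        (Finset.mem_sdiff.1 ha).2 ?_
      intro g hg h1 h2 h3
      apply hZe
      refine ⟨x, ?_⟩
      rw [hZ, Finset.mem_filter]
      exact ⟨hxE, by omega, by omega, g, hg, by omega, by omega, by rw [h3, ha']⟩
    · intro g hg
      exact hFlt g (Finset.mem_filter.1 hg).1
    · intro x hx g h1 h2 h3
      rw [Finset.mem_filter] at hx
      exact Finset.mem_filter.2 ⟨h3, h2, by omega⟩
    · intro p hp hpB
      set s := e + 1 - Δ with hs
      have h1 : p ∈ B σ s ∨ ∃ (g : ℕ) (hg : g < σ.length), s ≤ g ∧ g ≤ e ∧ σ[g] = p := by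
        have h2 := (hA e hel).subset hp
        rw [Finset.mem_insert] at h2
        rcases h2 with h2 | h2
        · exact Or.inr ⟨e, hel, by omega, le_rfl, h2.symm⟩
        · by_contra hcon
          push Not at hcon
          have h3 : p ∈ garbage B Δ σ e (A e) := by
            unfold garbage
            rw [Finset.mem_filter]
            refine ⟨h2, hcon.1, ?_⟩
            intro h4
            obtain ⟨g, hg, h5, h6, h7⟩ := mem_past hel h4
            exact hcon.2 g hg h5 h6 h7
          rw [heg] at h3
          exact absurd h3 (Finset.notMem_empty p)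
      rcases h1 with h1 | ⟨g, hg, h1, h2, h3⟩
      · obtain ⟨g, h4, h5, h6⟩ := hBr.exists_evict (j := s) (e := e + 1) (by omega) h1 hpB
        have h7 : g ∈ F := by
          rw [hF, mem_faults]
          have h6' := h6
          rw [Finset.mem_sdiff] at h6'
          exact ⟨by omega, ((hBr g (by omega)).of_evicted h6'.1 h6'.2).1⟩
        exact ⟨g, Finset.mem_filter.2 ⟨h7, by omega, by omega⟩, h6⟩
      · obtain ⟨g', h4, h5, h6, h7⟩ := hevB s e p g hg h1 h2 hel h3 hpB
        exact ⟨g', Finset.mem_filter.2 ⟨h4, h6, by omega⟩, h7⟩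

end Pool.Agent.H688R3.Paging
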